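import Pool.Agent.Helper81.XP.Defs

set_option autoImplicit false

/-!
Basic lemmas on the action of `SL_2(K)` on the projective line.
-/

open Finset
open scoped Pointwise LinearAlgebra.Projectivization

namespace Pool.Agent.Helper81.XP

variable {K : Type} [Field K]

theorem mulVec_inv_mulVec (g : SL K) (v : Fin 2 → K) :
    ((g⁻¹ : SL K) : Matrix (Fin 2) (Fin 2) K).mulVec
      ((g : Matrix (Fin 2) (Fin 2) K).mulVec v) = v := by
  rw [Matrix.mulVec_mulVec, ← Matrix.SpecialLinearGroup.coe_mul, inv_mul_cancel]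
  simp

theorem mulVec_ne (g : SL K) {v : Fin 2 → K} (hv : v ≠ 0) :
    (g : Matrix (Fin 2) (Fin 2) K).mulVec v ≠ 0 := by
  intro h
  apply hv
  have := mulVec_inv_mulVec g v
  rw [h, Matrix.mulVec_zero] at this
  exact this.symm

theorem smul_pt (g : SL K) (v : Fin 2 → K) (hv : v ≠ 0) :
    g • (Projectivization.mk K v hv : Pt K) =
      Projectivization.mk K ((g : Matrix (Fin 2) (Fin 2) K).mulVec v) (mulVec_ne g hv) := rfl

theorem smul_pt_eq_iff (g : SL K) (v w : Fin 2 → K) (hv : v ≠ 0) (hw : w ≠ 0) :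
    g • (Projectivization.mk K v hv : Pt K) = Projectivization.mk K w hw ↔
      ∃ c : K, (g : Matrix (Fin 2) (Fin 2) K).mulVec v = c • w := by
  rw [smul_pt, Projectivization.mk_eq_mk_iff']
  constructor
  · rintro ⟨c, hc⟩; exact ⟨c, hc.symm⟩
  · rintro ⟨c, hc⟩; exact ⟨c, hc.symm⟩

theorem smul_pt_fix_iff (g : SL K) (v : Fin 2 → K) (hv : v ≠ 0) :
    g • (Projectivization.mk K v hv : Pt K) = Projectivization.mk K v hv ↔
      ∃ c : K, (g : Matrix (Fin 2) (Fin 2) K).mulVec v = c • v :=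
  smul_pt_eq_iff g v v hv hv

theorem e1_ne : (![1, 0] : Fin 2 → K) ≠ 0 := fun h => one_ne_zero (congrFun h 0)

theorem e2_ne : (![0, 1] : Fin 2 → K) ≠ 0 := fun h => one_ne_zero (congrFun h 1)

/-- the point `[1 : 0]` -/
def e1 (K : Type) [Field K] : Pt K := Projectivization.mk K ![1, 0] e1_ne

/-- the point `[0 : 1]` -/
def e2 (K : Type) [Field K] : Pt K := Projectivization.mk K ![0, 1] e2_ne

theorem e1_ne_e2 : e1 K ≠ e2 K := by
  intro h
  obtain ⟨c, hc⟩ := (Projectivization.mk_eq_mk_iff' K _ _ e1_ne e2_ne).1 h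
  have := congrFun hc 0
  simp at this

theorem smul_e1_eq_e1 (g : SL K) :
    g • e1 K = e1 K ↔ (g : Matrix (Fin 2) (Fin 2) K) 1 0 = 0 := by
  rw [e1, smul_pt_eq_iff]
  constructor
  · rintro ⟨c, hc⟩
    have := congrFun hc 1
    simpa [Matrix.mulVec, dotProduct, Fin.sum_univ_two] using this
  · intro h
    refine ⟨(g : Matrix (Fin 2) (Fin 2) K) 0 0, ?_⟩
    funext i
    fin_cases i <;> simp [Matrix.mulVec, dotProduct, Fin.sum_univ_two, h]

theorem smul_e2_eq_e2 (g : SL K) :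
    g • e2 K = e2 K ↔ (g : Matrix (Fin 2) (Fin 2) K) 0 1 = 0 := by
  rw [e2, smul_pt_eq_iff]
  constructor
  · rintro ⟨c, hc⟩
    have := congrFun hc 0
    simpa [Matrix.mulVec, dotProduct, Fin.sum_univ_two] using this
  · intro h
    refine ⟨(g : Matrix (Fin 2) (Fin 2) K) 1 1, ?_⟩
    funext i
    fin_cases i <;> simp [Matrix.mulVec, dotProduct, Fin.sum_univ_two, h]

theorem smul_e1_eq_e2 (g : SL K) :
    g • e1 K = e2 K ↔ (g : Matrix (Fin 2) (Fin 2) K) 0 0 = 0 := by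
  rw [e1, e2, smul_pt_eq_iff]
  constructor
  · rintro ⟨c, hc⟩
    have := congrFun hc 0
    simpa [Matrix.mulVec, dotProduct, Fin.sum_univ_two] using this
  · intro h
    refine ⟨(g : Matrix (Fin 2) (Fin 2) K) 1 0, ?_⟩
    funext i
    fin_cases i <;> simp [Matrix.mulVec, dotProduct, Fin.sum_univ_two, h]

theorem smul_e2_eq_e1 (g : SL K) :
    g • e2 K = e1 K ↔ (g : Matrix (Fin 2) (Fin 2) K) 1 1 = 0 := by
  rw [e1, e2, smul_pt_eq_iff]
  constructor
  · rintro ⟨c, hc⟩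
    have := congrFun hc 1
    simpa [Matrix.mulVec, dotProduct, Fin.sum_univ_two] using this
  · intro h
    refine ⟨(g : Matrix (Fin 2) (Fin 2) K) 0 1, ?_⟩
    funext i
    fin_cases i <;> simp [Matrix.mulVec, dotProduct, Fin.sum_univ_two, h]

/-- a matrix with prescribed (independent) columns up to scaling of the second one -/
theorem exists_move (ξ ξ' : Pt K) (h : ξ ≠ ξ') : ∃ c : SL K, c • ξ = e1 K ∧ c • ξ' = e2 K := by
  obtain ⟨v, hv, rfl⟩ : ∃ v, ∃ hv : v ≠ 0, Projectivization.mk K v hv = ξ :=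
    ⟨ξ.rep, ξ.rep_nonzero, ξ.mk_rep⟩
  obtain ⟨w, hw, rfl⟩ : ∃ v, ∃ hv : v ≠ 0, Projectivization.mk K v hv = ξ' :=
    ⟨ξ'.rep, ξ'.rep_nonzero, ξ'.mk_rep⟩
  set D : K := v 0 * w 1 - v 1 * w 0 with hD
  have hD0 : D ≠ 0 := by
    intro h0
    apply h
    rw [Projectivization.mk_eq_mk_iff']
    by_cases h1 : w 0 = 0
    · have hw1 : w 1 ≠ 0 := by
        intro h2; apply hw; funext i; fin_cases i
        · exact h1
        · exact h2
      have hv0 : v 0 = 0 := by
        rw [hD, h1, mul_zero, sub_zero] at h0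
        exact (mul_eq_zero.1 h0).resolve_right hw1
      refine ⟨v 1 / w 1, ?_⟩
      funext i; fin_cases i
      · simp [h1, hv0]
      · simp [hw1]
    · refine ⟨v 0 / w 0, ?_⟩
      funext i; fin_cases i
      · simp [h1]
      · have : v 0 * w 1 = v 1 * w 0 := by rw [hD] at h0; exact sub_eq_zero.1 h0
        simp only [Fin.mk_one, Pi.smul_apply, smul_eq_mul]
        field_simp
        rw [this]
        ring
  let c : SL K := ⟨!![w 1 / D, -w 0 / D; -v 1, v 0], by
    rw [Matrix.det_fin_two_of]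
    field_simp
    rw [hD]
    ring⟩
  refine ⟨c, ?_, ?_⟩
  · rw [e1, smul_pt_eq_iff]
    refine ⟨1, ?_⟩
    funext i
    fin_cases i
    · simp only [c, Matrix.mulVec, dotProduct, Fin.sum_univ_two, Fin.zero_eta, Matrix.of_apply,
        Matrix.cons_val_zero, Matrix.cons_val_one, one_smul]
      field_simp
      rw [hD]
      ring
    · simp [c, Matrix.mulVec, dotProduct, Fin.sum_univ_two]
      ring
  · rw [e2, smul_pt_eq_iff]
    refine ⟨D, ?_⟩
    funext i
    fin_cases i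
    · simp only [c, Matrix.mulVec, dotProduct, Fin.sum_univ_two, Fin.zero_eta, Matrix.of_apply,
        Matrix.cons_val_zero, Matrix.cons_val_one, Pi.smul_apply, smul_eq_mul, mul_zero]
      field_simp
      ring
    · simp [c, Matrix.mulVec, dotProduct, Fin.sum_univ_two, hD]
      ring

theorem exists_move1 (ξ : Pt K) : ∃ c : SL K, c • ξ = e1 K := by
  by_cases h : ξ = e1 K
  · exact ⟨1, by rw [one_smul, h]⟩
  · obtain ⟨c, hc, -⟩ := exists_move ξ (e1 K) h
    exact ⟨c, hc⟩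

theorem conj_smul_eq_iff {Γ Y : Type} [Group Γ] [MulAction Γ Y] (c g : Γ) (ξ ξ' : Y) :
    (c * g * c⁻¹) • (c • ξ) = c • ξ' ↔ g • ξ = ξ' := by
  rw [smul_smul, mul_assoc, inv_mul_cancel, mul_one, ← smul_smul, smul_left_cancel_iff]

theorem tr_mul_comm {R : Type} [CommRing R] (g h : SL R) : tr (g * h) = tr (h * g) := by
  simp only [tr, Matrix.SpecialLinearGroup.coe_mul]
  exact Matrix.trace_mul_comm _ _

theorem tr_conj {R : Type} [CommRing R] (c g : SL R) : tr (c * g * c⁻¹) = tr g := by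
  rw [tr_mul_comm, ← mul_assoc, inv_mul_cancel, one_mul]

theorem ct_conj {Γ : Type} [Group Γ] (c g h : Γ) :
    ct (c * g * c⁻¹) (c * h * c⁻¹) = c * ct g h * c⁻¹ := by
  simp only [ct]; group

theorem tr_eq {R : Type} [CommRing R] (g : SL R) :
    tr g = (g : Matrix (Fin 2) (Fin 2) R) 0 0 + (g : Matrix (Fin 2) (Fin 2) R) 1 1 := by
  rw [tr, Matrix.trace_fin_two]

theorem det_eq {R : Type} [CommRing R] (g : SL R) :
    (g : Matrix (Fin 2) (Fin 2) R) 0 0 * (g : Matrix (Fin 2) (Fin 2) R) 1 1 -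
      (g : Matrix (Fin 2) (Fin 2) R) 0 1 * (g : Matrix (Fin 2) (Fin 2) R) 1 0 = 1 := by
  rw [← Matrix.det_fin_two, g.det_coe]

theorem eq_pm_one (g : SL K) (h1 : (g : Matrix (Fin 2) (Fin 2) K) 0 1 = 0)
    (h2 : (g : Matrix (Fin 2) (Fin 2) K) 1 0 = 0)
    (h3 : (g : Matrix (Fin 2) (Fin 2) K) 0 0 = (g : Matrix (Fin 2) (Fin 2) K) 1 1) :
    g = 1 ∨ g = -1 := by
  have hd := det_eq g
  rw [h1, h3, zero_mul, sub_zero] at hd
  rcases mul_self_eq_one_iff.1 hd with h | h
  · left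
    ext i j
    fin_cases i <;> fin_cases j <;> simp [h1, h2, h3, h]
  · right
    ext i j
    fin_cases i <;> fin_cases j <;> simp [h1, h2, h3, h]

theorem exists_fix [IsAlgClosed K] (g : SL K) : ∃ ξ : Pt K, g • ξ = ξ := by
  by_cases h0 : (g : Matrix (Fin 2) (Fin 2) K) 1 0 = 0
  · exact ⟨e1 K, (smul_e1_eq_e1 g).2 h0⟩
  · obtain ⟨w, hw⟩ := IsAlgClosed.exists_root
      (Polynomial.C ((g : Matrix (Fin 2) (Fin 2) K) 1 0) * Polynomial.X ^ 2 +
        Polynomial.C ((g : Matrix (Fin 2) (Fin 2) K) 1 1 - (g : Matrix (Fin 2) (Fin 2) K) 0 0) *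
          Polynomial.X + Polynomial.C (-(g : Matrix (Fin 2) (Fin 2) K) 0 1))
      (by rw [Polynomial.degree_quadratic h0]; norm_num)
    have hw' : (g : Matrix (Fin 2) (Fin 2) K) 1 0 * w ^ 2 +
        ((g : Matrix (Fin 2) (Fin 2) K) 1 1 - (g : Matrix (Fin 2) (Fin 2) K) 0 0) * w -
          (g : Matrix (Fin 2) (Fin 2) K) 0 1 = 0 := by
      have := hw
      simp only [Polynomial.IsRoot.def, Polynomial.eval_add, Polynomial.eval_mul,
        Polynomial.eval_C, Polynomial.eval_pow, Polynomial.eval_X] at this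
      rw [sub_eq_add_neg]
      exact this
    have hv : (![w, 1] : Fin 2 → K) ≠ 0 := fun h => one_ne_zero (congrFun h 1)
    refine ⟨Projectivization.mk K ![w, 1] hv, ?_⟩
    rw [smul_pt_fix_iff]
    refine ⟨(g : Matrix (Fin 2) (Fin 2) K) 1 0 * w + (g : Matrix (Fin 2) (Fin 2) K) 1 1, ?_⟩
    funext i
    fin_cases i
    · simp [Matrix.mulVec, dotProduct, Fin.sum_univ_two]
      linear_combination -hw'
    · simp [Matrix.mulVec, dotProduct, Fin.sum_univ_two]

end Pool.Agent.Helper81.XP
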