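import Pool.Agent.Helper81.XP.Defs

set_option autoImplicit false

/-!
MP_f90738_co: statements, part B (double commutators, ping-pong at the generic points, counting).
-/

open Finset
open scoped Pointwise LinearAlgebra.Projectivization

namespace Pool.Agent.Helper81.XP

/-! ### words -/

/-- WDL: words -/
def ST_WDL : Prop := ∀ (Γ : Type) [Group Γ] (a b : Γ),
  (∀ m n (g h : Γ), IsWd a b m g → IsWd a b n h → IsWd a b (m + n) (g * h)) ∧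
  (∀ n (g : Γ), IsWd a b n g → IsWd a b n g⁻¹) ∧
  (∀ m n (g : Γ), m ≤ n → IsWd a b m g → IsWd a b n g) ∧ IsWd a b 1 a ∧ IsWd a b 1 b ∧
  ∀ (Δ : Type) [Group Δ] (φ : Γ →* Δ) (n : ℕ),
    (∀ w : Fin n → Fin 5, φ (wd a b w) = wd (φ a) (φ b) w) ∧
    ∀ u : Fin 4 → Fin n → Fin 5, φ (dw a b u) = dw (φ a) (φ b) u

/-- PWD: the entries of words are polynomials -/
def ST_PWD : Prop := ∀ (k : Type) [Field k] (n : ℕ) (w : Fin n → Fin 5),
  ∃ F : Fin 2 → Fin 2 → MvPolynomial (Fin 3) k, (∀ i j, (F i j).totalDegree ≤ 2 * n) ∧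
  ∀ (K : Type) [Field K] [Algebra k K] (P : Fin 3 → K), P 2 ≠ 0 → ∀ i j,
    P 2 ^ n * ((wd (vA P) (vB P) w : SL K) : Matrix (Fin 2) (Fin 2) K) i j =
      MvPolynomial.aeval P (F i j)

/-- WPL: the double commutator of four words vanishes iff four polynomials vanish -/
def ST_WPL : Prop := ∀ (k : Type) [Field k] (n : ℕ) (u : Fin 4 → Fin n → Fin 5),
  ∃ F : Fin 4 → MvPolynomial (Fin 3) k, (∀ i, (F i).totalDegree ≤ 32 * n) ∧
  ∀ (K : Type) [Field K] [Algebra k K] (P : Fin 3 → K), P 2 ≠ 0 →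
    (dw (vA P) (vB P) u = 1 ↔ ∀ i, MvPolynomial.aeval P (F i) = 0)

/-! ### ping-pong and non-concentration -/

open Classical in
/-- L2A: ping-pong forces decay of the random walk on any set -/
def ST_L2A : Prop := ∀ (Γ : Type) [Group Γ] (Y : Type) [MulAction Γ Y] (a b : Γ) (L : ℕ),
  1 ≤ L → PP Y a b L → ∀ (n : ℕ) (ξ ξ' : Y),
  (((univ : Finset (Fin n → Fin 5)).filter (fun w => wd a b w • ξ = ξ')).card : ℝ) ≤
    (1 - 1 / (80 * (L : ℝ) ^ 2)) ^ n * 5 ^ n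

/-- TRL: traces on a torus -/
def ST_TRL : Prop := ∀ (K : Type) [Field K] [IsAlgClosed K] (a c : SL K), c ≠ 1 → c ≠ -1 →
  (∀ ξ ξ' : Pt K, c • ξ = ξ → c • ξ' = ξ' → a • ξ ≠ ξ') →
  ∃ h : SL K, ∀ g : SL K, g * c = c * g → tr (a * g) = tr a → g = 1 ∨ g = h

open Classical in
/-- UPR: non-concentration bounds the number of vanishing double commutators -/
def ST_UPR : Prop := ∀ (K : Type) [Field K] [IsAlgClosed K] (a b : SL K) (n : ℕ) (θ : ℝ), 0 ≤ θ →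
  NC a b n θ → (((univ : Finset (Fin 4 → Fin n → Fin 5)).filter
    (fun u => dw a b u = 1)).card : ℝ) ≤ 20 * θ * ((5 : ℝ) ^ n) ^ 4

/-! ### normal forms -/

/-- NRF: normal form of irreducible pairs -/
def ST_NRF : Prop := ∀ (K : Type) [Field K] [IsAlgClosed K] (A B : SL K),
  (∀ ξ : Pt K, A • ξ = ξ → B • ξ ≠ ξ) → ∃ P : Fin 3 → K, P 2 ≠ 0 ∧ P 0 = tr A ∧ P 1 = tr B ∧
    P 2 + (P 2)⁻¹ = tr (A * B) ∧ ∃ g : SL K, g * A * g⁻¹ = vA P ∧ g * B * g⁻¹ = vB P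

/-- GDP: traces and reducibility of the normal form -/
def ST_GDP : Prop := ∀ (K : Type) [Field K] [IsAlgClosed K] (P : Fin 3 → K), P 2 ≠ 0 →
  tr (vA P) = P 0 ∧ tr (vB P) = P 1 ∧ tr (vA P * vB P) = P 2 + (P 2)⁻¹ ∧
  (kap P = 0 ↔ ∃ ξ : Pt K, vA P • ξ = ξ ∧ vB P • ξ = ξ)

/-- GDF: the normal form of a generating pair of `SL_2(F_p)` is good -/
def ST_GDF : Prop := ∀ (p : ℕ) [Fact p.Prime], 5 ≤ p → ∀ A B : SL (ZMod p),
  Subgroup.closure ({A, B} : Set (SL (ZMod p))) = ⊤ →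
  ∃ P : Fin 3 → AlgebraicClosure (ZMod p), Good P ∧
    P 0 = algebraMap (ZMod p) (AlgebraicClosure (ZMod p)) (tr A) ∧
    P 1 = algebraMap (ZMod p) (AlgebraicClosure (ZMod p)) (tr B) ∧
    P 2 + (P 2)⁻¹ = algebraMap (ZMod p) (AlgebraicClosure (ZMod p)) (tr (A * B)) ∧
    ∀ (n : ℕ) (u : Fin 4 → Fin n → Fin 5), dw A B u = 1 ↔ dw (vA P) (vB P) u = 1

/-! ### ping-pong from valuations -/

/-- SFX: a conjugate of `X` without common fixed points with `X` -/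
def ST_SFX : Prop := ∀ (K : Type) [Field K] [IsAlgClosed K] (X Z : SL K), tr X ^ 2 ≠ 4 →
  (∀ ξ : Pt K, X • ξ = ξ → Z • ξ ≠ ξ) → ¬ (tr Z = 0 ∧ tr (X * Z) = 0) →
  tr (ct X (Z * X * Z⁻¹)) ≠ 2 ∨ tr (ct X ((Z * X * Z) * X * (Z * X * Z)⁻¹)) ≠ 2 ∨
    tr (ct X ((Z * X * X * Z) * X * (Z * X * X * Z)⁻¹)) ≠ 2

/-- PPK: ping-pong from valuations -/
def ST_PPK : Prop := ∀ (K : Type) [Field K] [IsAlgClosed K] (O : ValuationSubring K) (X s : SL K),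
  1 < O.valuation (tr X) →
  1 ≤ O.valuation (tr (ct X (s * X * s⁻¹)) - 2) * O.valuation (tr X) ^ 160 →
  P4 (Pt K) (X ^ 165) (s * X ^ 165 * s⁻¹)

/-- VAI: valuations at infinity -/
def ST_VAI : Prop := ∀ (k : Type) [Field k],
  (∃ O : ValuationSubring (Om k), AtInf O) ∧ ∀ O : ValuationSubring (Om k), AtInf O →
    (∀ c : k, c ≠ 0 → O.valuation (algebraMap k (Om k) c) = 1) ∧ 1 < O.valuation (tt k) ∧
    ∀ q : Polynomial k, q ≠ 0 →
      O.valuation (algebraMap (Polynomial k) (Om k) q) = O.valuation (tt k) ^ q.natDegree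

/-- VAP: valuations at a point -/
def ST_VAP : Prop := ∀ (k : Type) [Field k] (t0 : k),
  (∃ O : ValuationSubring (Om k), AtPt t0 O) ∧ ∀ O : ValuationSubring (Om k), AtPt t0 O →
    (∀ c : k, c ≠ 0 → O.valuation (algebraMap k (Om k) c) = 1) ∧
    (∀ a : Om k, IsIntegral (Polynomial k) a → O.valuation a ≤ 1) ∧
    ∀ q : Polynomial k, O.valuation (algebraMap (Polynomial k) (Om k) q) < 1 → q.eval t0 = 0

/-- INT: integral elements fixed by the Galois group -/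
def ST_INT : Prop := ∀ (k : Type) [Field k] (a : Om k), IsIntegral (Polynomial k) a →
  (∀ σ : Om k ≃ₐ[RatFunc k] Om k, σ a = a) →
  (∃ m : ℕ, 1 ≤ m ∧ ∃ q : Polynomial k, a ^ m = algebraMap (Polynomial k) (Om k) q) ∧
  (IsSeparable (RatFunc k) a → ∃ q : Polynomial k, a = algebraMap (Polynomial k) (Om k) q)

/-- SEP: elements of degree less than `p` are separable -/
def ST_SEP : Prop := ∀ (F : Type) [Field F] (L : Type) [Field L] [Algebra F L] (p : ℕ),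
  p.Prime → CharP F p → ∀ a : L, IsIntegral F a → (minpoly F a).natDegree < p → IsSeparable F a

open Classical in
/-- ORB: the product formula on a Galois orbit -/
def ST_ORB : Prop := ∀ (k : Type) [Field k] (P : Fin 3 → Om k),
  (∀ i, IsIntegral (Polynomial k) (P i)) → ∃ S : Finset (Fin 3 → Om k), P ∈ S ∧
    (∀ Q, Q ∈ S ↔ ∃ σ : Om k ≃ₐ[RatFunc k] Om k, Q = fun i => σ (P i)) ∧
    ∀ O : ValuationSubring (Om k), AtInf O → ∀ Φ : MvPolynomial (Fin 3) k,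
      MvPolynomial.aeval P Φ ≠ 0 → 1 ≤ ∏ Q ∈ S, O.valuation (MvPolynomial.aeval Q Φ)

open Classical in
/-- HVY: the heaviest class -/
def ST_HVY : Prop := ∀ (G : Type) [LinearOrderedCommGroupWithZero G] (ι : Type) (S : Finset ι)
  (M : ι → G) (cl : ι → Fin 3), S.Nonempty → (∀ i ∈ S, 1 < M i) →
  ∃ j : Fin 3, (∃ i ∈ S, cl i = j) ∧ ∀ f : ι → G, (∀ i ∈ S, f i ≤ M i ^ 64) →
    1 ≤ ∏ i ∈ S, f i → ∃ i ∈ S, cl i = j ∧ 1 ≤ f i * M i ^ 128

/-- KPL: the polynomials `τ^32 (tr [X, sXs⁻¹] - 2)` -/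
def ST_KPL : Prop := ∀ (k : Type) [Field k] (m1 m2 : ℕ) (w1 : Fin m1 → Fin 5)
  (w2 : Fin m2 → Fin 5), 4 * m1 + 4 * m2 ≤ 32 → ∃ Φ : MvPolynomial (Fin 3) k,
  ∀ (K : Type) [Field K] [Algebra k K] (P : Fin 3 → K), P 2 ≠ 0 →
    MvPolynomial.aeval P Φ = P 2 ^ 32 * (tr (ct (wd (vA P) (vB P) w1)
      (wd (vA P) (vB P) w2 * wd (vA P) (vB P) w1 * (wd (vA P) (vB P) w2)⁻¹)) - 2) ∧
    ∀ (O : ValuationSubring K) (M : O.ValueGroup), 1 ≤ M → O.valuation (P 0) ≤ M →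
      O.valuation (P 1) ≤ M → O.valuation (P 2) ≤ M → O.valuation (P 2)⁻¹ ≤ M →
      O.valuation (MvPolynomial.aeval P Φ) ≤ M ^ 64

/-- UUU: some conjugate of a point of the class plays ping-pong -/
def ST_UUU : Prop := ∀ (k : Type) [Field k] (P : Fin 3 → Om k), InCls P →
  ∃ σ : Om k ≃ₐ[RatFunc k] Om k,
    PP (Pt (Om k)) (vA fun i => σ (P i)) (vB fun i => σ (P i)) LL

open Classical in
/-- NCP: the double commutator rarely vanishes at a point of the class -/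
def ST_NCP : Prop := ∀ (k : Type) [Field k] (P : Fin 3 → Om k), InCls P → ∀ n : ℕ,
  (((univ : Finset (Fin 4 → Fin n → Fin 5)).filter (fun u => dw (vA P) (vB P) u = 1)).card : ℝ) ≤
    20 * rr ^ n * ((5 : ℝ) ^ n) ^ 4

/-! ### elimination -/

/-- LIA: linear changes of coordinates -/
def ST_LIA : Prop := ∀ (k : Type) [Field k],
  (∀ (K : Type) [CommRing K] [Algebra k K] (M : Matrix (Fin 3) (Fin 3) k) (a b c : K)
    (F : MvPolynomial (Fin 3) k), ev3 a b c (phi M F) = MvPolynomial.aeval (mv M a b c) F) ∧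
  (∀ M : Matrix (Fin 3) (Fin 3) k, M.det ≠ 0 → Function.Bijective (phi M)) ∧
  ∀ (M : Matrix (Fin 3) (Fin 3) k) (c : k) (d : ℕ) (F : MvPolynomial (Fin 3) k), M.det ≠ 0 →
    Mo3 d (phi M F) → ∃ M' : Matrix (Fin 3) (Fin 3) k, M'.det ≠ 0 ∧ Mo3 d (phi M' F) ∧
      ∀ (K : Type) [CommRing K] [Algebra k K] (x y z : K),
        mv M' x y z = mv M (x + algebraMap k K c * y) y z

/-- LIB: making a polynomial monic -/
def ST_LIB : Prop := ∀ (k : Type) [Field k] [Infinite k],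
  (∀ (M : Matrix (Fin 3) (Fin 3) k) (F : MvPolynomial (Fin 3) k), TD3 F.totalDegree (phi M F)) ∧
  ∀ F : MvPolynomial (Fin 3) k, F ≠ 0 → ∃ M : Matrix (Fin 3) (Fin 3) k, M.det ≠ 0 ∧
    Mo3 F.totalDegree (phi M F)

/-- SH2: making a polynomial in two variables monic -/
def ST_SH2 : Prop := ∀ (k : Type) [Field k] [Infinite k] (R : T2 k) (N : ℕ), R ≠ 0 → TD2 N R →
  ∃ (c : k) (N' : ℕ) (R1 : T2 k), N' ≤ N ∧ Mo2 N' R1 ∧
    ∀ (K : Type) [CommRing K] [Algebra k K] (a b : K),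
      ev2 a b R1 = ev2 (a + algebraMap k K c * b) b R

/-- RES: resultant -/
def ST_RES : Prop := ∀ (k : Type) [Field k] (g g' : T3 k) (d D : ℕ), 1 ≤ d → Mo3 d g →
  Irreducible g → ¬ g ∣ g' → TD3 D g' → ∃ R : T2 k, R ≠ 0 ∧ TD2 ((d + D) ^ 2) R ∧
    ∀ (K : Type) [CommRing K] [Algebra k K] (a b c : K), ev3 a b c g = 0 → ev3 a b c g' = 0 →
      ev2 a b R = 0

/-- ELR: elimination for an irreducible polynomial -/
def ST_ELR : Prop := ∀ (k : Type) [Field k] [Infinite k] (g g' : MvPolynomial (Fin 3) k) (D : ℕ),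
  Irreducible g → ¬ g ∣ g' → g.totalDegree ≤ D → g'.totalDegree ≤ D →
  ∃ (M : Matrix (Fin 3) (Fin 3) k) (d N : ℕ) (R : T2 k), M.det ≠ 0 ∧ 1 ≤ d ∧ d ≤ D ∧
    N ≤ 4 * D ^ 2 ∧ Mo3 d (phi M g) ∧ Mo2 N R ∧
    ∀ a b c : k, MvPolynomial.eval (mv M a b c) g = 0 → MvPolynomial.eval (mv M a b c) g' = 0 →
      ev2 a b R = 0

/-! ### specialisation -/

/-- RTL: lifting of roots -/
def ST_RTL : Prop := ∀ (K : Type) [Field K] [IsAlgClosed K] (O : ValuationSubring K)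
  (G : Polynomial K) (w : K), O.valuation G.leadingCoeff = 1 → O.valuation (G.eval w) < 1 →
  ∃ ζ : K, G.IsRoot ζ ∧ O.valuation (w - ζ) < 1

/-- RED: reduction -/
def ST_RED : Prop := ∀ (k : Type) [Field k] (K : Type) [Field K] [Algebra k K]
  (O : ValuationSubring K) (e : Fin 3 → k) (P : Fin 3 → K), (∀ c : k, algebraMap k K c ∈ O) →
  (∀ i, O.valuation (P i - algebraMap k K (e i)) < 1) →
  (∀ Φ : MvPolynomial (Fin 3) k,
    O.valuation (MvPolynomial.aeval P Φ - algebraMap k K (MvPolynomial.eval e Φ)) < 1) ∧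
  (Good e → Good P)

/-- SPE: a surface with a good point contains a point of the class -/
def ST_SPE : Prop := ∀ (k : Type) [Field k] [Infinite k] (g : MvPolynomial (Fin 3) k)
  (e : Fin 3 → k), g ≠ 0 → MvPolynomial.eval e g = 0 → Good e →
  ∃ P : Fin 3 → Om k, InCls P ∧ MvPolynomial.aeval P g = 0

/-- GEN: generic linear combinations -/
def ST_GEN : Prop := ∀ (k : Type) [Field k] [Infinite k] (K : Type) [Field K] [Algebra k K]
  (ι : Type) (S : Finset ι) (v : ι → Fin 4 → K), (∀ i ∈ S, ∃ l, v i l ≠ 0) →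
  ∃ c : Fin 4 → k, ∀ i ∈ S, ∑ l, algebraMap k K (c l) * v i l ≠ 0

/-- generic points of the curve `R(t, s) = 0 = g` -/
def GP {k : Type} [Field k] (M : Matrix (Fin 3) (Fin 3) k) (g : MvPolynomial (Fin 3) k)
    (R : T2 k) (P : Fin 3 → Om k) : Prop :=
  ∃ s w : Om k, P = mv M (tt k) s w ∧ ev2 (tt k) s R = 0 ∧ ev3 (tt k) s w (phi M g) = 0

/-- CNA: generic points of a curve -/
def ST_CNA : Prop := ∀ (k : Type) [Field k] (M : Matrix (Fin 3) (Fin 3) k)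
  (g : MvPolynomial (Fin 3) k) (R : T2 k) (d N : ℕ), M.det ≠ 0 → Mo3 d (phi M g) → Mo2 N R →
  (∃ S : Finset (Fin 3 → Om k), S.card ≤ N * d ∧ ∀ P, P ∈ S ↔ GP M g R P) ∧
  ∀ P, GP M g R P → (∀ i, IsIntegral (Polynomial k) (P i)) ∧
    (∃ (c : Fin 3 → k) (e : k),
      tt k = ∑ i, algebraMap k (Om k) (c i) * P i + algebraMap k (Om k) e) ∧
    (∀ i, (minpoly (RatFunc k) (P i)).natDegree ≤ N * d) ∧
    (∀ σ : Om k ≃ₐ[RatFunc k] Om k, GP M g R (fun i => σ (P i))) ∧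
    ∀ O : ValuationSubring (Om k), AtInf O → ∀ i, O.valuation (P i) ≤ O.valuation (tt k)

/-- CNB: every point of the curve is a specialisation of a generic point -/
def ST_CNB : Prop := ∀ (k : Type) [Field k] (M : Matrix (Fin 3) (Fin 3) k)
  (g : MvPolynomial (Fin 3) k) (R : T2 k) (d N : ℕ), M.det ≠ 0 → Mo3 d (phi M g) → Mo2 N R →
  ∀ a b c : k, ev2 a b R = 0 → MvPolynomial.eval (mv M a b c) g = 0 →
  ∀ O : ValuationSubring (Om k), AtPt a O → ∃ P, GP M g R P ∧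
    ∀ i, O.valuation (P i - algebraMap k (Om k) (mv M a b c i)) < 1

open Classical in
/-- CNC: counting common zeros on a curve -/
def ST_CNC : Prop := ∀ (k : Type) [Field k] [IsAlgClosed k] (p : ℕ) [Fact p.Prime] [CharP k p]
  (M : Matrix (Fin 3) (Fin 3) k) (g : MvPolynomial (Fin 3) k) (R : T2 k) (d N D : ℕ),
  M.det ≠ 0 → Mo3 d (phi M g) → Mo2 N R → N * d < p →
  ∃ ℒ : Finset (Fin 3 → Om k), ℒ.card ≤ N * d ∧ (∀ P ∈ ℒ, InCls P) ∧
    ∀ h : Fin 4 → MvPolynomial (Fin 3) k, (∀ l, (h l).totalDegree ≤ D) →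
    (∀ P ∈ ℒ, ∃ l, MvPolynomial.aeval P (h l) ≠ 0) →
    ∀ E : Finset (Fin 3 → k), (∀ e ∈ E, Good e ∧ (∀ l, MvPolynomial.eval e (h l) = 0) ∧
      ∃ a b c, e = mv M a b c ∧ ev2 a b R = 0 ∧ MvPolynomial.eval e g = 0) →
    E.card ≤ N * d * (D * (N * d))

open Classical in
/-- DET: counting common zeros of three systems -/
def ST_DET : Prop := ∀ (k : Type) [Field k] [IsAlgClosed k] (p : ℕ) [Fact p.Prime] [CharP k p]
  (D : ℕ) (E : Finset (Fin 3 → k)), 4 * D ^ 3 < p → (∀ e ∈ E, Good e) →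
  ∀ f : Fin 4 → MvPolynomial (Fin 3) k, (∀ l, (f l).totalDegree ≤ D) → (∃ l, f l ≠ 0) →
  ∃ L1 : Finset (Fin 3 → Om k), L1.card ≤ D ∧ (∀ P ∈ L1, InCls P) ∧
  ∀ g : Fin 4 → MvPolynomial (Fin 3) k, (∀ l, (g l).totalDegree ≤ D) →
    (∀ P ∈ L1, ∃ l, MvPolynomial.aeval P (g l) ≠ 0) →
  ∃ L2 : Finset (Fin 3 → Om k), L2.card ≤ 4 * D ^ 4 ∧ (∀ P ∈ L2, InCls P) ∧
  ∀ h : Fin 4 → MvPolynomial (Fin 3) k, (∀ l, (h l).totalDegree ≤ D) →
    (∀ P ∈ L2, ∃ l, MvPolynomial.aeval P (h l) ≠ 0) →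
  (E.filter (fun e => ∀ l, MvPolynomial.eval e (f l) = 0 ∧ MvPolynomial.eval e (g l) = 0 ∧
    MvPolynomial.eval e (h l) = 0)).card ≤ 16 * D ^ 8

/-! ### the end -/

open Classical in
/-- TRP: counting triples -/
def ST_TRP : Prop := ∀ (U V : Type) [Fintype U] (E : Finset V) (Z : U → V → Prop)
  (β ε B : ℝ), 0 ≤ β → 0 ≤ ε → 0 ≤ B →
  (∀ e ∈ E, β * (Fintype.card U : ℝ) ≤ ((univ.filter (fun u => Z u e)).card : ℝ)) →
  (∃ B1 : Finset U, (B1.card : ℝ) ≤ ε * Fintype.card U ∧ ∀ u1, u1 ∉ B1 →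
    ∃ B2 : Finset U, (B2.card : ℝ) ≤ ε * Fintype.card U ∧ ∀ u2, u2 ∉ B2 →
    ∃ B3 : Finset U, (B3.card : ℝ) ≤ ε * Fintype.card U ∧ ∀ u3, u3 ∉ B3 →
      ((E.filter (fun e => Z u1 e ∧ Z u2 e ∧ Z u3 e)).card : ℝ) ≤ B) →
  0 < Fintype.card U → (E.card : ℝ) * β ^ 3 ≤ B + 3 * ε * E.card

open Classical in
/-- BDE: few points at which the double commutator often vanishes -/
def ST_BDE : Prop := ∀ (k : Type) [Field k] [IsAlgClosed k] (p : ℕ) [Fact p.Prime] [CharP k p]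
  (n : ℕ) (E : Finset (Fin 3 → k)) (β : ℝ), 1 ≤ n → 4 * (32 * n) ^ 3 < p → (∀ e ∈ E, Good e) →
  0 ≤ β → (∀ e ∈ E, β * ((5 : ℝ) ^ n) ^ 4 ≤ (((univ : Finset (Fin 4 → Fin n → Fin 5)).filter
    (fun u => dw (vA e) (vB e) u = 1)).card : ℝ)) →
  (E.card : ℝ) * β ^ 3 ≤ 16 * (32 * (n : ℝ)) ^ 8 +
    3 * (4 * (32 * (n : ℝ)) ^ 4 * (20 * rr ^ n)) * E.card

open Classical in
/-- CTT: at all but few pairs the double commutator rarely vanishes -/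
def ST_CTT : Prop := ∃ T : ℝ, 0 < T ∧ ∀ κ : ℝ, 0 < κ → ∃ p0 : ℕ, ∀ (p : ℕ) [Fact p.Prime],
  p0 ≤ p → ∃ j : ℕ, (2 : ℝ) ^ (j + 1) ≤ T * Real.log p ∧
  ∃ X : Finset (ZMod p × ZMod p × ZMod p), (X.card : ℝ) ≤ (p : ℝ) ^ (4 * κ) ∧
    ∀ A B : SL (ZMod p), Subgroup.closure ({A, B} : Set (SL (ZMod p))) = ⊤ →
    (tr A, tr B, tr (A * B)) ∉ X →
    (((univ : Finset (Fin 4 → Fin (2 ^ (j + 1)) → Fin 5)).filter
      (fun u => dw A B u = 1)).card : ℝ) < (p : ℝ) ^ (-κ) * ((5 : ℝ) ^ (2 ^ (j + 1))) ^ 4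

/-- FIN: the main theorem -/
def ST_FIN : Prop := ∀ δ : ℝ, 0 < δ → ∃ c : ℝ, 0 < c ∧ ∀ (p : ℕ) [Fact p.Prime],
  ∃ X : Finset (ZMod p × ZMod p × ZMod p), (X.card : ℝ) ≤ (p : ℝ) ^ δ ∧
    ∀ A B : SL (ZMod p), Subgroup.closure ({A, B} : Set (SL (ZMod p))) = ⊤ →
    (tr A, tr B, tr (A * B)) ∉ X → Expd A B c

end Pool.Agent.Helper81.XP
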