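import Pool.Agent.Helper81.XP.Defs

set_option autoImplicit false

/-!
MP_f90738_co: statements, part A (finite group: Bourgain-Gamburd machine).
-/

open Finset
open scoped Pointwise LinearAlgebra.Projectivization

namespace Pool.Agent.Helper81.XP

/-! ### random walk and convolution -/

/-- WLK -/
def ST_WLK : Prop := ∀ (G : Type) [Group G] [Fintype G] (a b : G) (m n : ℕ),
  SP (mu a b n) ∧ mu a b (m + n) = cv (mu a b m) (mu a b n) ∧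
  (∀ (H : Subgroup G) (g : G), cm (mu a b n) g H ^ 2 ≤ cm (mu a b (n + n)) 1 H) ∧
  (∀ (H : Subgroup G) (δ : ℝ), (∀ g, cm (mu a b n) g H ≤ δ) →
    ∀ g, cm (mu a b (m + n)) g H ≤ δ) ∧
  (∀ x, mu a b (n + n) x ≤ mu a b (n + n) 1)

/-- YNG -/
def ST_YNG : Prop := ∀ (G : Type) [Group G] [Fintype G] (ν f : G → ℝ), (∀ x, 0 ≤ ν x) →
  ∑ x, ν x = 1 → N2 (cv ν f) ≤ N2 f ∧ N2 (cv f ν) ≤ N2 f

/-! ### Balog-Szemeredi-Gowers and approximate groups -/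

open Classical in
/-- PTH: paths of length three -/
def ST_PTH : Prop := ∃ C : ℕ, 1 ≤ C ∧ ∀ (V : Type) (A B : Finset V) (R : V → V → Prop) (δ : ℝ),
  0 < δ → δ ≤ 1 → A.Nonempty → B.Nonempty →
  δ * (A.card : ℝ) * (B.card : ℝ) ≤ (((A ×ˢ B).filter (fun q => R q.1 q.2)).card : ℝ) →
  ∃ A' ⊆ A, ∃ B' ⊆ B, δ ^ C * (A.card : ℝ) ≤ C * (A'.card : ℝ) ∧
    δ ^ C * (B.card : ℝ) ≤ C * (B'.card : ℝ) ∧
    ∀ a ∈ A', ∀ b ∈ B', δ ^ C * (A.card : ℝ) * (B.card : ℝ) ≤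
      C * (((B ×ˢ A).filter (fun q => R a q.1 ∧ R q.2 q.1 ∧ R q.2 b)).card : ℝ)

open Classical in
/-- BSG -/
def ST_BSG : Prop := ∃ C : ℕ, 1 ≤ C ∧ ∀ (G : Type) [Group G] (A : Finset G) (K : ℝ), 1 ≤ K →
  A.Nonempty → A⁻¹ = A → (A.card : ℝ) ^ 3 ≤ K * (En A : ℝ) →
  ∃ P ⊆ A, P.Nonempty ∧ (A.card : ℝ) ≤ C * K ^ C * (P.card : ℝ) ∧
    ((P * P⁻¹).card : ℝ) ≤ C * K ^ C * (P.card : ℝ)

open Classical in
/-- APG -/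
def ST_APG : Prop := ∃ C : ℕ, 1 ≤ C ∧ ∀ (G : Type) [Group G] (P : Finset G) (K : ℝ), 1 ≤ K →
  P.Nonempty → ((P * P⁻¹).card : ℝ) ≤ K * (P.card : ℝ) →
  ∃ H : Finset G, IsApproximateSubgroup (C * K ^ C) (H : Set G) ∧
    (H.card : ℝ) ≤ C * K ^ C * (P.card : ℝ) ∧
    ∃ X : Finset G, (X.card : ℝ) ≤ C * K ^ C ∧ P ⊆ X * H

open Classical in
/-- LEV -/
def ST_LEV : Prop := ∀ (G : Type) [Group G] [Fintype G] (ν : G → ℝ), SP ν → ∀ K L : ℝ, 1 ≤ K →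
  Real.logb 2 (16 * K ^ 2 / N2 ν) + 2 ≤ L → N2 ν ≤ K ^ 2 * N2 (cv ν ν) →
  ∃ A : Finset G, A.Nonempty ∧ A⁻¹ = A ∧
    (A.card : ℝ) ^ 3 ≤ 16 * (2 * K * L ^ 2) ^ 2 * (En A : ℝ) ∧
    (∀ x ∈ A, 1 ≤ 4 * (2 * K * L ^ 2) * (A.card : ℝ) * ν x) ∧
    (A.card : ℝ) * N2 ν ≤ 16 * (2 * K * L ^ 2) ^ 2

/-! ### geometry of the projective line -/

/-- FIX: fixed points -/
def ST_FIX : Prop := ∀ (K : Type) [Field K] [IsAlgClosed K] (g : SL K), g ≠ 1 → g ≠ -1 →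
  ∃ ξ1 ξ2 : Pt K, (∀ ξ : Pt K, g • ξ = ξ ↔ ξ = ξ1 ∨ ξ = ξ2) ∧ (ξ1 = ξ2 ↔ tr g ^ 2 = 4)

/-- CFP: common fixed points and the trace of the commutator -/
def ST_CFP : Prop := ∀ (K : Type) [Field K] [IsAlgClosed K] (g h : SL K),
  tr (ct g h) = 2 ↔ ∃ ξ : Pt K, g • ξ = ξ ∧ h • ξ = ξ

open Classical in
/-- ESC: escape -/
def ST_ESC : Prop := ∀ (Γ Y : Type) [Group Γ] [MulAction Γ Y] (S : Finset Γ), 1 ∈ S → S⁻¹ = S →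
  (∀ Φ : Finset Y, Φ.Nonempty → Φ.card ≤ 3 → ∃ g ∈ S, ∃ y ∈ Φ, g • y ∉ Φ) →
  ∀ Φ : Finset Y, Φ.card = 2 → ∃ g ∈ S ^ 8, ∀ y ∈ Φ, g • y ∉ Φ

open Classical in
/-- TOR: torus bound for the diagonal torus -/
def ST_TOR : Prop := ∀ (K : Type) [Field K] (D : Finset (SL K)) (g : SL K),
  (∀ d ∈ D, (d : Matrix (Fin 2) (Fin 2) K) 0 1 = 0 ∧ (d : Matrix (Fin 2) (Fin 2) K) 1 0 = 0) →
  (∀ i j, (g : Matrix (Fin 2) (Fin 2) K) i j ≠ 0) →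
  D.card ^ 2 * (D.card - 4) ≤ 8 * (D * {g} * D * {g} * D).card

open Classical in
/-- TOC: torus bound for arbitrary tori -/
def ST_TOC : Prop := ∀ (K : Type) [Field K] (A : Finset (SL K)) (ξ ξ' : Pt K) (g : SL K) (j : ℕ),
  1 ∈ A → g ∈ A ^ 8 → ξ ≠ ξ' → g • ξ ≠ ξ → g • ξ ≠ ξ' → g • ξ' ≠ ξ → g • ξ' ≠ ξ' →
  ((A ^ j).filter (fun x => x • ξ = ξ ∧ x • ξ' = ξ')).card ^ 2 *
    (((A ^ j).filter (fun x => x • ξ = ξ ∧ x • ξ' = ξ')).card - 4) ≤ 8 * (A ^ (3 * j + 16)).card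

open Classical in
/-- TRC: trace coordinates -/
def ST_TRC : Prop := ∀ (K : Type) [Field K] (h1 h2 : SL K), tr (ct h1 h2) ≠ 2 →
  ∀ X : Finset (SL K), X.card ≤ 2 * (X.image (fun x => tr x)).card *
    (X.image (fun x => tr (x * h1))).card * (X.image (fun x => tr (x * h2))).card

/-- no small invariant sets -/
def NI {K : Type} [Field K] (A : Finset (SL K)) : Prop :=
  ∀ Φ : Finset (Pt K), Φ.Nonempty → Φ.card ≤ 3 → ∃ g ∈ A, ∃ y ∈ Φ, g • y ∉ Φ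

open Classical in
/-- PRA: tori of an approximate group, upper bounds -/
def ST_PRA : Prop := ∃ C : ℕ, 1 ≤ C ∧ ∀ (K : Type) [Field K] [IsAlgClosed K] (A : Finset (SL K))
  (κ : ℝ), IsApproximateSubgroup κ (A : Set (SL K)) → NI A →
  (∀ a : SL K, tr a ^ 2 ≠ 4 →
    (((A ^ 2).filter (fun x => x * a = a * x)).card : ℝ) ^ 3 ≤ C * κ ^ C * (A.card : ℝ)) ∧
  (∀ j ≤ 40, (((A ^ j).image (fun x => tr x)).card : ℝ) ^ 3 ≤ C * κ ^ C * (A.card : ℝ))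

open Classical in
/-- PRB: tori of an approximate group, lower bounds -/
def ST_PRB : Prop := ∃ C : ℕ, 1 ≤ C ∧ ∀ (K : Type) [Field K] [IsAlgClosed K] (A : Finset (SL K))
  (κ : ℝ), IsApproximateSubgroup κ (A : Set (SL K)) → NI A →
  (∀ a ∈ A ^ 20, tr a ^ 2 ≠ 4 →
    (A.card : ℝ) ≤ C * κ ^ C * (((A ^ 2).filter (fun x => x * a = a * x)).card : ℝ) ^ 3) ∧
  (C * κ ^ C < (A.card : ℝ) → ∃ a ∈ A ^ 20, tr a ^ 2 ≠ 4)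

/-! ### `SL_2(F_p)` -/

/-- CRD -/
def ST_CRD : Prop := ∀ p : ℕ, p.Prime → Nat.card (SL (ZMod p)) = p ^ 3 - p

/-- PRF: `SL_2(F_p)` is not solvable -/
def ST_PRF : Prop := ∀ p : ℕ, p.Prime → 5 ≤ p → ∀ N : Subgroup (SL (ZMod p)),
  (∀ g h : SL (ZMod p), ct g h ∈ N) → N = ⊤

open Classical in
/-- NIV: generating sets have no small invariant sets -/
def ST_NIV : Prop := ∀ (p : ℕ) [Fact p.Prime], 5 ≤ p → ∀ A : Finset (SL (ZMod p)),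
  Subgroup.closure (A : Set (SL (ZMod p))) = ⊤ → NI (A.image (io p))

open Classical in
/-- STB: conjugates of a torus -/
def ST_STB : Prop := ∀ (p : ℕ) [Fact p.Prime] (a b : SL (ZMod p)), tr a ^ 2 ≠ 4 → b ≠ 1 →
  b ≠ -1 → ((univ : Finset (SL (ZMod p))).filter
    (fun g => b * (g * a * g⁻¹) = (g * a * g⁻¹) * b)).card ≤ 4 * p

/-- PRO: product theorem -/
def ST_PRO : Prop := ∃ C : ℕ, 1 ≤ C ∧ ∀ (p : ℕ) [Fact p.Prime], 5 ≤ p →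
  ∀ (A : Finset (SL (ZMod p))) (κ : ℝ), IsApproximateSubgroup κ (A : Set (SL (ZMod p))) →
  Subgroup.closure (A : Set (SL (ZMod p))) = ⊤ →
  (A.card : ℝ) ≤ C * κ ^ C ∨ (p : ℝ) ^ 3 ≤ C * κ ^ C * (A.card : ℝ)

/-- SBU: subgroups with elements of order `p` -/
def ST_SBU : Prop := ∀ (p : ℕ) [Fact p.Prime] (H : Subgroup (SL (ZMod p))), H ≠ ⊤ →
  p ∣ Nat.card H → ∃ ξ : Pt (AlgebraicClosure (ZMod p)), ∀ h ∈ H, io p h • ξ = ξ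

/-- SBB: subgroups of order prime to `p` -/
def ST_SBB : Prop := ∀ (p : ℕ) [Fact p.Prime] (H : Subgroup (SL (ZMod p))), 3 ≤ p →
  ¬ p ∣ Nat.card H → Nat.card H ≤ 120 ∨ ∃ ξ1 ξ2 : Pt (AlgebraicClosure (ZMod p)), ∀ h ∈ H,
    (io p h • ξ1 = ξ1 ∨ io p h • ξ1 = ξ2) ∧ (io p h • ξ2 = ξ1 ∨ io p h • ξ2 = ξ2)

/-- MET: the stabiliser of a set of one or two points is metabelian -/
def ST_MET : Prop := ∀ (K : Type) [Field K] (ξ1 ξ2 : Pt K) (h : Fin 4 → SL K),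
  (∀ i, (h i • ξ1 = ξ1 ∨ h i • ξ1 = ξ2) ∧ (h i • ξ2 = ξ1 ∨ h i • ξ2 = ξ2)) →
  dc (h 0) (h 1) (h 2) (h 3) = 1

/-! ### flattening and spectral gap -/

/-- FLT: flattening -/
def ST_FLT : Prop := ∃ C : ℕ, 1 ≤ C ∧ ∀ (p : ℕ) [Fact p.Prime], 5 ≤ p →
  ∀ ν : SL (ZMod p) → ℝ, SP ν → ∀ K δ : ℝ, 1 ≤ K → Real.log p ≤ K →
  (∀ H : Subgroup (SL (ZMod p)), H ≠ ⊤ → ∀ g, cm ν g H ≤ δ) → C * K ^ C * δ < 1 →
  K ^ 2 * N2 (cv ν ν) ≤ N2 ν ∨ N2 ν * (p : ℝ) ^ 3 ≤ C * K ^ C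

/-- ITR: iteration of the flattening -/
def ST_ITR : Prop := ∃ C : ℕ, 1 ≤ C ∧ ∀ (p : ℕ) [Fact p.Prime], 5 ≤ p →
  ∀ (a b : SL (ZMod p)) (j J : ℕ) (K δ : ℝ), 1 ≤ K → Real.log p ≤ K → (p : ℝ) ^ 3 ≤ K ^ (2 * J) →
  (∀ H : Subgroup (SL (ZMod p)), H ≠ ⊤ → ∀ g, cm (mu a b (2 ^ j)) g H ≤ δ) → C * K ^ C * δ < 1 →
  N2 (mu a b (2 ^ (j + J))) * (p : ℝ) ^ 3 ≤ C * K ^ C

/-- DIM: representations of small dimension -/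
def ST_DIM : Prop := ∀ (p : ℕ) [Fact p.Prime], 5 ≤ p → ∀ W : Submodule ℂ (SL (ZMod p) → ℂ),
  W ≠ ⊥ → (∀ f ∈ W, ∀ g, (fun x => f (x * g)) ∈ W) → (∀ f ∈ W, ∑ x, f x = 0) →
  p - 1 ≤ 2 * Module.finrank ℂ W

/-- QSR: quasirandomness -/
def ST_QSR : Prop := ∀ (p : ℕ) [Fact p.Prime], 5 ≤ p → ∀ ν f : SL (ZMod p) → ℝ, ∑ x, f x = 0 →
  ((p : ℝ) - 1) * N2 (cv ν f) ≤ 2 * (Nat.card (SL (ZMod p)) : ℝ) * N2 ν * N2 f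

/-- GAP: from flatness to expansion -/
def ST_GAP : Prop := ∀ (p : ℕ) [Fact p.Prime], 5 ≤ p → ∀ (a b : SL (ZMod p)) (j : ℕ) (ρ : ℝ),
  0 < ρ → ρ < 1 → 2 * (Nat.card (SL (ZMod p)) : ℝ) * N2 (mu a b (2 ^ j)) ≤
    ((p : ℝ) - 1) * ρ ^ (2 * 2 ^ j) → Expd a b ((1 - ρ) ^ 2 / 4)

/-- SML: trivial expansion -/
def ST_SML : Prop := ∀ (G : Type) [Group G] [Finite G] (a b : G),
  Subgroup.closure ({a, b} : Set G) = ⊤ → Expd a b (1 / (Nat.card G : ℝ))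

open Classical in
/-- MIX: pairs for which the double commutator rarely vanishes expand -/
def ST_MIX : Prop := ∀ κ T : ℝ, 0 < κ → 0 < T → ∃ c : ℝ, 0 < c ∧ ∃ p1 : ℕ,
  ∀ (p : ℕ) [Fact p.Prime], p1 ≤ p → ∀ (a b : SL (ZMod p)) (j : ℕ),
  (2 : ℝ) ^ (j + 1) ≤ T * Real.log p → Subgroup.closure ({a, b} : Set (SL (ZMod p))) = ⊤ →
  (((univ : Finset (Fin 4 → Fin (2 ^ (j + 1)) → Fin 5)).filter (fun u => dw a b u = 1)).card : ℝ)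
    < (p : ℝ) ^ (-κ) * ((5 : ℝ) ^ (2 ^ (j + 1))) ^ 4 → Expd a b c

end Pool.Agent.Helper81.XP
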