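import Pool.Agent.Helper81.XP.CCL

set_option autoImplicit false

/-!
MP_f90738_co: final form of the theorem.
-/

open Finset
open scoped Pointwise

namespace Pool.Agent.Helper81.XP

theorem SExp_iff {G : Type} [Group G] [inst : DecidableEq G] (S : Finset G) (c : ℝ) :
    SExp S c ↔ ∀ X : Finset G, 2 * X.card ≤ Nat.card G →
      c * (X.card : ℝ) ≤ ((((S ∪ S⁻¹) * X) \ X).card : ℝ) := by
  have h : inst = fun a b => Classical.propDecidable (a = b) := Subsingleton.elim _ _
  subst h
  rfl

theorem mem_Bl_iff {G : Type} [Group G] [inst : DecidableEq G] (S : Finset G) (l : ℕ) (a : G) :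
    a ∈ Bl S l ↔ a ∈ (S ∪ S⁻¹ ∪ {1}) ^ l := by
  have h : inst = fun a b => Classical.propDecidable (a = b) := Subsingleton.elim _ _
  subst h
  rfl

theorem SExp_conj {G : Type} [Group G] [inst : DecidableEq G] (S : Finset G) (c : ℝ)
    (φ : G ≃* G) (h : SExp S c) : SExp (S.image φ) c := by
  rw [SExp_iff] at h ⊢
  intro X hX
  have hinj : Function.Injective φ := φ.injective
  have hXY : X = (X.image φ.symm).image φ := by
    rw [Finset.image_image]
    ext x
    simp
  set Y := X.image φ.symm with hY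
  have hcard : Y.card = X.card := Finset.card_image_of_injective _ φ.symm.injective
  have h1 := h Y (by rw [hcard]; exact hX)
  have h2 : ((S.image φ ∪ (S.image φ)⁻¹) * X) \ X = (((S ∪ S⁻¹) * Y) \ Y).image φ := by
    rw [Finset.image_sdiff _ _ hinj, ← hXY, Finset.image_mul, Finset.image_union,
      Finset.image_inv, ← hXY]
  rw [h2, Finset.card_image_of_injective _ hinj, ← hcard]
  exact h1

theorem SExp_mono {G : Type} [Group G] (S : Finset G) (c c' : ℝ) (hc : c' ≤ c) (h : SExp S c) :
    SExp S c' := by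
  intro X hX
  exact le_trans (mul_le_mul_of_nonneg_right hc (Nat.cast_nonneg _)) (h X hX)

theorem exists_tuple {G : Type} [DecidableEq G] (S : Finset G) (r : ℕ) (hr : S.card ≤ r)
    (hne : S.Nonempty) : ∃ s : Fin r → G, (univ : Finset (Fin r)).image s = S := by
  obtain ⟨x0, hx0⟩ := hne
  let e := S.equivFin
  refine ⟨fun i => if h : (i : ℕ) < S.card then (e.symm ⟨i, h⟩ : G) else x0, ?_⟩
  ext x
  simp only [Finset.mem_image, Finset.mem_univ, true_and]
  constructor
  · rintro ⟨i, rfl⟩
    by_cases h : (i : ℕ) < S.card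
    · rw [dif_pos h]; exact (e.symm ⟨i, h⟩).2
    · rw [dif_neg h]; exact hx0
  · intro hx
    refine ⟨⟨(e ⟨x, hx⟩ : ℕ), lt_of_lt_of_le (e ⟨x, hx⟩).2 hr⟩, ?_⟩
    have h : (e ⟨x, hx⟩ : ℕ) < S.card := (e ⟨x, hx⟩).2
    rw [dif_pos h]
    have : (⟨(e ⟨x, hx⟩ : ℕ), h⟩ : Fin S.card) = e ⟨x, hx⟩ := Fin.ext rfl
    rw [this, Equiv.symm_apply_apply]

theorem classes_p (h : ST_FNR) (hSMS : ST_SMS) (hCRD : ST_CRD) (r l : ℕ) (δ : ℝ) (hδ : 0 < δ) :
    ∃ ε : ℝ, 0 < ε ∧ ∀ p : ℕ, p.Prime →
      (∃ R : Finset (Finset (Matrix.SpecialLinearGroup (Fin 2) (ZMod p))),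
        (R.card : ℝ) ≤ (p : ℝ) ^ δ ∧
        ∀ S : Finset (Matrix.SpecialLinearGroup (Fin 2) (ZMod p)), S.card ≤ r →
          Subgroup.closure (S : Set (Matrix.SpecialLinearGroup (Fin 2) (ZMod p))) = ⊤ →
          (∀ Q ∈ R, ∀ g : Matrix.SpecialLinearGroup (Fin 2) (ZMod p),
            S ≠ Q.image (fun x => g * x * g⁻¹)) →
          ∀ X : Finset (Matrix.SpecialLinearGroup (Fin 2) (ZMod p)),
            2 * X.card ≤ Nat.card (Matrix.SpecialLinearGroup (Fin 2) (ZMod p)) →
            ε * (X.card : ℝ) ≤ ((((S ∪ S⁻¹) * X) \ X).card : ℝ)) ∧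
      (∃ T : Finset (ZMod p × ZMod p × ZMod p), (T.card : ℝ) ≤ (p : ℝ) ^ δ ∧
        ∀ S : Finset (Matrix.SpecialLinearGroup (Fin 2) (ZMod p)),
          ∀ A ∈ (S ∪ S⁻¹ ∪ {1}) ^ l, ∀ B ∈ (S ∪ S⁻¹ ∪ {1}) ^ l,
          Subgroup.closure {A, B} = ⊤ →
          (Matrix.trace (A : Matrix (Fin 2) (Fin 2) (ZMod p)),
            Matrix.trace (B : Matrix (Fin 2) (Fin 2) (ZMod p)),
            Matrix.trace ((A * B : Matrix.SpecialLinearGroup (Fin 2) (ZMod p)) :
              Matrix (Fin 2) (Fin 2) (ZMod p))) ∉ T →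
          ∀ X : Finset (Matrix.SpecialLinearGroup (Fin 2) (ZMod p)),
            2 * X.card ≤ Nat.card (Matrix.SpecialLinearGroup (Fin 2) (ZMod p)) →
            ε * (X.card : ℝ) ≤ ((((S ∪ S⁻¹) * X) \ X).card : ℝ)) := by
  obtain ⟨ε, hε, hmain⟩ := h r l (δ / 2) (by positivity)
  obtain ⟨p2, hp2⟩ : ∃ p2 : ℕ, ∀ p : ℕ, p2 ≤ p → (4 : ℝ) ≤ (p : ℝ) ^ (δ / 2) := by
    have ht : Filter.Tendsto (fun n : ℕ => (n : ℝ) ^ (δ / 2)) Filter.atTop Filter.atTop :=
      (tendsto_rpow_atTop (by positivity)).comp tendsto_natCast_atTop_atTop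
    exact Filter.eventually_atTop.1 (ht.eventually_ge_atTop 4)
  set m : ℕ := max p2 2 with hm
  set ε' : ℝ := min ε (1 / (m : ℝ) ^ 3) with hε'
  have hmpos : (0 : ℝ) < m := by
    have : 0 < m := lt_of_lt_of_le (by norm_num) (le_max_right p2 2)
    exact_mod_cast this
  have hε'pos : 0 < ε' := lt_min hε (by positivity)
  refine ⟨ε', hε'pos, ?_⟩
  intro p hp
  have hfact : Fact p.Prime := ⟨hp⟩
  have hp1 : (1 : ℝ) < p := by exact_mod_cast hp.one_lt
  obtain ⟨⟨T, hT, hTS⟩, hcount⟩ := hmain p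
  have hδ2 : (p : ℝ) ^ (δ / 2) ≤ (p : ℝ) ^ δ :=
    Real.rpow_le_rpow_of_exponent_le hp1.le (by linarith)
  refine ⟨?_, T, le_trans hT hδ2, ?_⟩
  · by_cases hpm : p2 ≤ p
    · -- large primes
      classical
      set F : Finset (Fin r → SL (ZMod p)) := (univ : Finset (Fin r → SL (ZMod p))).filter
        (fun s => Subgroup.closure (Set.range s) = ⊤ ∧
          ¬ SExp ((univ : Finset (Fin r)).image s) ε) with hF
      have hFcard : (F.card : ℝ) ≤ (p : ℝ) ^ (3 + δ / 2) := by
        refine le_trans (le_of_eq ?_) hcount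
        rw [hF]
      have hgen : ∀ s ∈ F, Subgroup.closure (Set.range s) = ⊤ := by
        intro s hs
        exact (Finset.mem_filter.1 hs).2.1
      have himg : ∀ (g : SL (ZMod p)) (s : Fin r → SL (ZMod p)),
          (univ : Finset (Fin r)).image (cj g s) =
            ((univ : Finset (Fin r)).image s).image (MulAut.conj g) := by
        intro g s
        rw [Finset.image_image]
        rfl
      have hinv : ∀ s ∈ F, ∀ g, cj g s ∈ F := by
        intro s hs g
        have hs' := (Finset.mem_filter.1 hs).2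
        rw [hF, Finset.mem_filter]
        refine ⟨Finset.mem_univ _, ?_, ?_⟩
        · have : Set.range (cj g s) = (MulAut.conj g).toMonoidHom '' Set.range s := by
            rw [← Set.range_comp]
            rfl
          rw [this, ← MonoidHom.map_closure, hs'.1, ← MonoidHom.range_eq_map,
            MonoidHom.range_eq_top]
          exact (MulAut.conj g).surjective
        · intro hcon
          apply hs'.2
          have := SExp_conj _ ε (MulAut.conj g⁻¹) hcon
          rw [himg, Finset.image_image] at this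
          have hid : (⇑(MulAut.conj g⁻¹) ∘ ⇑(MulAut.conj g)) = id := by
            funext x
            simp only [Function.comp, MulAut.conj_apply, id]
            group
          rw [hid, Finset.image_id] at this
          exact this
      obtain ⟨R, hR, hRF⟩ := classes p F hgen hinv
      refine ⟨R.image (fun t => (univ : Finset (Fin r)).image t), ?_, ?_⟩
      · have h1 : ((R.card : ℝ)) * ((p : ℝ) ^ 3 - p) ≤ 2 * (p : ℝ) ^ (3 + δ / 2) := by
          have h2 : (R.card : ℝ) * (Nat.card (SL (ZMod p)) : ℝ) ≤ 2 * (F.card : ℝ) := by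
            exact_mod_cast hR
          rw [hCRD p hp] at h2
          rw [Nat.cast_sub (Nat.le_self_pow (by norm_num) p), Nat.cast_pow] at h2
          linarith
        have h3 : (p : ℝ) ^ 3 / 2 ≤ (p : ℝ) ^ 3 - p := by
          have : (2 : ℝ) ≤ p := by exact_mod_cast hp.two_le
          nlinarith [mul_nonneg (by linarith : (0 : ℝ) ≤ (p : ℝ) - 2) (by linarith : (0 : ℝ) ≤ p),
            mul_nonneg (mul_nonneg (by linarith : (0 : ℝ) ≤ (p : ℝ) - 2)
              (by linarith : (0 : ℝ) ≤ p)) (by linarith : (0 : ℝ) ≤ p)]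
        have h4 : (R.card : ℝ) * ((p : ℝ) ^ 3 / 2) ≤ 2 * ((p : ℝ) ^ 3 * (p : ℝ) ^ (δ / 2)) := by
          refine le_trans (mul_le_mul_of_nonneg_left h3 (Nat.cast_nonneg _)) (le_trans h1 ?_)
          rw [Real.rpow_add (by linarith : (0 : ℝ) < p)]
          norm_num
        have h5 : (R.card : ℝ) ≤ 4 * (p : ℝ) ^ (δ / 2) := by
          have hp3 : (0 : ℝ) < (p : ℝ) ^ 3 := by positivity
          have : (p : ℝ) ^ 3 * (R.card : ℝ) ≤ (p : ℝ) ^ 3 * (4 * (p : ℝ) ^ (δ / 2)) := by
            linarith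
          exact le_of_mul_le_mul_left this hp3
        have h6 : (4 : ℝ) * (p : ℝ) ^ (δ / 2) ≤ (p : ℝ) ^ δ := by
          calc (4 : ℝ) * (p : ℝ) ^ (δ / 2) ≤ (p : ℝ) ^ (δ / 2) * (p : ℝ) ^ (δ / 2) :=
                mul_le_mul_of_nonneg_right (hp2 p hpm) (by positivity)
            _ = (p : ℝ) ^ δ := by
                rw [← Real.rpow_add (by linarith : (0 : ℝ) < p)]
                congr 1
                ring
        refine le_trans ?_ (le_trans h5 h6)
        exact_mod_cast Finset.card_image_le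
      · intro S hS hSgen hSR
        rw [← SExp_iff]
        by_contra hcon
        have hne : S.Nonempty := by
          rw [Finset.nonempty_iff_ne_empty]
          intro h0
          rw [h0, Finset.coe_empty, Subgroup.closure_empty] at hSgen
          have h7 : Nat.card (SL (ZMod p)) = 1 := by
            rw [← Subgroup.card_top, ← hSgen, Subgroup.card_bot]
          rw [hCRD p hp] at h7
          have h8 : 2 ≤ p := hp.two_le
          have h9 : p * 4 ≤ p ^ 3 := by nlinarith [Nat.mul_le_mul h8 h8]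
          omega
        obtain ⟨s, hs⟩ := exists_tuple S r hS hne
        have hsF : s ∈ F := by
          rw [hF, Finset.mem_filter]
          refine ⟨Finset.mem_univ _, ?_, ?_⟩
          · rw [← hSgen, ← hs]
            simp
          · rw [hs]
            intro h9
            exact hcon (SExp_mono S ε ε' (min_le_left _ _) h9)
        obtain ⟨t, ht, g, hg⟩ := hRF s hsF
        apply hSR _ (Finset.mem_image_of_mem _ ht) g
        rw [← hs, hg, Finset.image_image]
        rfl
    · -- small primes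
      refine ⟨∅, by rw [Finset.card_empty, Nat.cast_zero]; positivity, ?_⟩
      intro S hS hSgen hSR
      rw [← SExp_iff]
      have h1 := hSMS (SL (ZMod p)) S 1 1 1 (by rw [mem_Bl_iff]; simp) (by rw [mem_Bl_iff]; simp)
        (Or.inr hSgen)
      refine SExp_mono S _ ε' ?_ h1
      refine le_trans (min_le_right _ _) ?_
      apply one_div_le_one_div_of_le
      · rw [hCRD p hp]
        have h8 : 2 ≤ p := hp.two_le
        have h9 : p * 4 ≤ p ^ 3 := by nlinarith [Nat.mul_le_mul h8 h8]
        have : 0 < p ^ 3 - p := by omega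
        exact_mod_cast this
      · rw [hCRD p hp]
        have h10 : p ≤ m := le_trans (le_of_lt (not_le.1 hpm)) (le_max_left _ _)
        have : p ^ 3 - p ≤ m ^ 3 := le_trans (Nat.sub_le _ _) (Nat.pow_le_pow_left h10 3)
        exact_mod_cast this
  · intro S A hA B hB hAB hABT
    rw [← SExp_iff]
    refine SExp_mono S ε ε' (min_le_left _ _) ?_
    exact hTS S A ((mem_Bl_iff S l A).2 hA) B ((mem_Bl_iff S l B).2 hB) hAB hABT

end Pool.Agent.Helper81.XP
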