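import Pool.Agent.Helper81.XP.StA
import Pool.Agent.Helper81.XP.StB
import Pool.Agent.Helper81.XP.Pj

set_option autoImplicit false

/-!
MP_f90738_co: module GDF.
-/

open Finset
open scoped Pointwise LinearAlgebra.Projectivization

namespace Pool.Agent.Helper81.XP

theorem io_apply (p : ℕ) [Fact p.Prime] (A : SL (ZMod p)) (i j : Fin 2) :
    ((io p A : SL (AlgebraicClosure (ZMod p))) :
      Matrix (Fin 2) (Fin 2) (AlgebraicClosure (ZMod p))) i j =
      algebraMap (ZMod p) (AlgebraicClosure (ZMod p))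
        ((A : Matrix (Fin 2) (Fin 2) (ZMod p)) i j) := rfl

theorem tr_io (p : ℕ) [Fact p.Prime] (A : SL (ZMod p)) :
    tr (io p A) = algebraMap (ZMod p) (AlgebraicClosure (ZMod p)) (tr A) := by
  rw [tr_eq, tr_eq, map_add, io_apply, io_apply]

theorem io_injective (p : ℕ) [Fact p.Prime] : Function.Injective (io p) := by
  intro A B h
  ext i j
  apply (algebraMap (ZMod p) (AlgebraicClosure (ZMod p))).injective
  rw [← io_apply, ← io_apply, h]

theorem neg_one_smul_pt {K : Type} [Field K] (ξ : Pt K) : (-1 : SL K) • ξ = ξ := by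
  obtain ⟨v, hv, rfl⟩ : ∃ v, ∃ hv : v ≠ 0, Projectivization.mk K v hv = ξ :=
    ⟨ξ.rep, ξ.rep_nonzero, ξ.mk_rep⟩
  rw [smul_pt_fix_iff]
  refine ⟨-1, ?_⟩
  funext i
  fin_cases i <;> simp

theorem inv_maps {Γ Y : Type} [Group Γ] [MulAction Γ Y] (Φ : Finset Y) (c : Γ)
    (h : ∀ y ∈ Φ, c • y ∈ Φ) : ∀ y ∈ Φ, c⁻¹ • y ∈ Φ := by
  classical
  have himg : Φ.image (fun y => c • y) = Φ := by
    apply Finset.eq_of_subset_of_card_le
    · intro z hz
      obtain ⟨y, hy, rfl⟩ := Finset.mem_image.1 hz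
      exact h y hy
    · rw [Finset.card_image_of_injective _ (MulAction.injective c)]
  intro y hy
  rw [← himg] at hy
  obtain ⟨z, hz, rfl⟩ := Finset.mem_image.1 hy
  rw [inv_smul_smul]
  exact hz

theorem dihedral {K : Type} [Field K] [IsAlgClosed K] (hFIX : ST_FIX) (C D : SL K)
    (h1 : tr C = 0) (h2 : tr (C * D) = 0)
    (hno : ∀ Φ : Finset (Pt K), Φ.Nonempty → Φ.card ≤ 3 → (∀ y ∈ Φ, C • y ∈ Φ) →
      (∀ y ∈ Φ, D • y ∈ Φ) → False) : False := by
  classical
  have hCD : D * C = C * D⁻¹ := by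
    rw [eq_mul_inv_iff_mul_eq]
    have hC := det_eq C
    have hD := det_eq D
    rw [tr_eq] at h1
    rw [tr_eq, Matrix.SpecialLinearGroup.coe_mul] at h2
    simp only [Matrix.mul_apply, Fin.sum_univ_two] at h2
    ext i j
    simp only [Matrix.SpecialLinearGroup.coe_mul]
    set c00 := (C : Matrix (Fin 2) (Fin 2) K) 0 0 with hc00
    set c01 := (C : Matrix (Fin 2) (Fin 2) K) 0 1 with hc01
    set c10 := (C : Matrix (Fin 2) (Fin 2) K) 1 0 with hc10
    set c11 := (C : Matrix (Fin 2) (Fin 2) K) 1 1 with hc11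
    set d00 := (D : Matrix (Fin 2) (Fin 2) K) 0 0 with hd00
    set d01 := (D : Matrix (Fin 2) (Fin 2) K) 0 1 with hd01
    set d10 := (D : Matrix (Fin 2) (Fin 2) K) 1 0 with hd10
    set d11 := (D : Matrix (Fin 2) (Fin 2) K) 1 1 with hd11
    have e : c11 = -c00 := by linear_combination h1
    rw [e] at h2
    fin_cases i <;> fin_cases j <;>
      simp only [Matrix.mul_apply, Fin.sum_univ_two, Fin.zero_eta, Fin.mk_one, ← hc00, ← hc01,
        ← hc10, ← hc11, ← hd00, ← hd01, ← hd10, ← hd11, e]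
    · linear_combination d00 * h2 + c00 * hD
    · linear_combination d01 * h2 + c01 * hD
    · linear_combination d10 * h2 + c10 * hD
    · linear_combination d11 * h2 - c00 * hD
  by_cases hD : D = 1 ∨ D = -1
  · obtain ⟨ξ, hξ⟩ := exists_fix C
    apply hno {ξ} (Finset.singleton_nonempty ξ) (by simp)
    · intro y hy
      rw [Finset.mem_singleton] at hy ⊢
      rw [hy, hξ]
    · intro y hy
      rw [Finset.mem_singleton] at hy ⊢
      rw [hy]
      rcases hD with h | h
      · rw [h, one_smul]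
      · rw [h, neg_one_smul_pt]
  · have hD1 : D ≠ 1 := fun h => hD (Or.inl h)
    have hD2 : D ≠ -1 := fun h => hD (Or.inr h)
    obtain ⟨ξ1, ξ2, hfix, -⟩ := hFIX K D hD1 hD2
    have key : ∀ y : Pt K, D • y = y → D • (C • y) = C • y := by
      intro y hy
      rw [smul_smul, hCD, ← smul_smul]
      congr 1
      rw [inv_smul_eq_iff, hy]
    apply hno {ξ1, ξ2} ⟨ξ1, by simp⟩ (le_trans Finset.card_le_two (by norm_num))
    · intro y hy
      simp only [Finset.mem_insert, Finset.mem_singleton] at hy ⊢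
      exact (hfix _).1 (key y ((hfix y).2 hy))
    · intro y hy
      have : D • y = y := by
        simp only [Finset.mem_insert, Finset.mem_singleton] at hy
        exact (hfix y).2 hy
      rw [this]; exact hy

theorem st_GDF (hNRF : ST_NRF) (hGDP : ST_GDP) (hNIV : ST_NIV) (hFIX : ST_FIX)
    (hWDL : ST_WDL) : ST_GDF := by
  classical
  intro p _ hp A B hAB
  have hNI := hNIV p hp {A, B} (by rw [Finset.coe_insert, Finset.coe_singleton]; exact hAB)
  have hno : ∀ Φ : Finset (Pt (AlgebraicClosure (ZMod p))), Φ.Nonempty → Φ.card ≤ 3 →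
      (∀ y ∈ Φ, io p A • y ∈ Φ) → (∀ y ∈ Φ, io p B • y ∈ Φ) → False := by
    intro Φ h1 h2 hA hB
    obtain ⟨g, hg, y, hy, hgy⟩ := hNI Φ h1 h2
    simp only [Finset.mem_image, Finset.mem_insert, Finset.mem_singleton] at hg
    obtain ⟨a, ha | ha, rfl⟩ := hg
    · rw [ha] at hgy; exact hgy (hA y hy)
    · rw [ha] at hgy; exact hgy (hB y hy)
  have hcf : ∀ ξ : Pt (AlgebraicClosure (ZMod p)), io p A • ξ = ξ → io p B • ξ ≠ ξ := by
    intro ξ h1 h2
    apply hno {ξ} (Finset.singleton_nonempty ξ) (by simp)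
    · intro y hy
      rw [Finset.mem_singleton] at hy ⊢
      rw [hy, h1]
    · intro y hy
      rw [Finset.mem_singleton] at hy ⊢
      rw [hy, h2]
  obtain ⟨P, hP2, hP0, hP1, hPz, g, hgA, hgB⟩ := hNRF _ (io p A) (io p B) hcf
  have hz : P 2 ^ 2 + 1 = 0 → tr (io p A * io p B) = 0 := by
    intro h
    rw [← hPz]
    field_simp
    rw [h, mul_zero]
  refine ⟨P, ⟨hP2, ?_, ?_, ?_, ?_⟩, ?_, ?_, ?_, ?_⟩
  · intro hk
    obtain ⟨ξ, hξ1, hξ2⟩ := ((hGDP _ P hP2).2.2.2).1 hk
    rw [← hgA] at hξ1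
    rw [← hgB] at hξ2
    apply hcf (g⁻¹ • ξ)
    · rw [← conj_smul_eq_iff g, smul_inv_smul]
      exact hξ1
    · rw [← conj_smul_eq_iff g, smul_inv_smul]
      exact hξ2
  · by_contra hcon
    push Not at hcon
    apply dihedral hFIX (io p A) (io p A * io p B) (by rw [← hP0]; exact hcon.1)
    · have e0 : tr (io p A) = 0 := by rw [← hP0]; exact hcon.1
      have e1 : tr (io p B) = 0 := by rw [← hP1]; exact hcon.2
      have hA := det_eq (io p A)
      rw [tr_eq] at e0 e1 ⊢
      simp only [Matrix.SpecialLinearGroup.coe_mul, Matrix.mul_apply, Fin.sum_univ_two]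
      set a00 := ((io p A : SL (AlgebraicClosure (ZMod p))) :
        Matrix (Fin 2) (Fin 2) (AlgebraicClosure (ZMod p))) 0 0
      set a01 := ((io p A : SL (AlgebraicClosure (ZMod p))) :
        Matrix (Fin 2) (Fin 2) (AlgebraicClosure (ZMod p))) 0 1
      set a10 := ((io p A : SL (AlgebraicClosure (ZMod p))) :
        Matrix (Fin 2) (Fin 2) (AlgebraicClosure (ZMod p))) 1 0
      set a11 := ((io p A : SL (AlgebraicClosure (ZMod p))) :
        Matrix (Fin 2) (Fin 2) (AlgebraicClosure (ZMod p))) 1 1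
      set b00 := ((io p B : SL (AlgebraicClosure (ZMod p))) :
        Matrix (Fin 2) (Fin 2) (AlgebraicClosure (ZMod p))) 0 0
      set b01 := ((io p B : SL (AlgebraicClosure (ZMod p))) :
        Matrix (Fin 2) (Fin 2) (AlgebraicClosure (ZMod p))) 0 1
      set b10 := ((io p B : SL (AlgebraicClosure (ZMod p))) :
        Matrix (Fin 2) (Fin 2) (AlgebraicClosure (ZMod p))) 1 0
      set b11 := ((io p B : SL (AlgebraicClosure (ZMod p))) :
        Matrix (Fin 2) (Fin 2) (AlgebraicClosure (ZMod p))) 1 1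
      linear_combination (a00 * b00 + a01 * b10 + a10 * b01 + a11 * b11) * e0 -
        (b00 + b11) * hA - e1
    · intro Φ h1 h2 hC hD
      apply hno Φ h1 h2 hC
      intro y hy
      have h3 := inv_maps Φ (io p A) hC _ (hD y hy)
      rw [smul_smul, inv_mul_cancel_left] at h3
      exact h3
  · by_contra hcon
    push Not at hcon
    exact dihedral hFIX (io p A) (io p B) (by rw [← hP0]; exact hcon.1) (hz hcon.2) hno
  · by_contra hcon
    push Not at hcon
    exact dihedral hFIX (io p B) (io p A) (by rw [← hP1]; exact hcon.1)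
      (by rw [tr_mul_comm]; exact hz hcon.2) (fun Φ h1 h2 h3 h4 => hno Φ h1 h2 h4 h3)
  · rw [hP0, tr_io]
  · rw [hP1, tr_io]
  · rw [hPz, ← map_mul, tr_io]
  · intro n u
    have e1 : dw A B u = 1 ↔ dw (io p A) (io p B) u = 1 := by
      rw [← ((hWDL _ A B).2.2.2.2.2 _ (io p) n).2 u]
      constructor
      · intro h; rw [h, map_one]
      · intro h; apply io_injective p; rw [h, map_one]
    rw [e1, ← hgA, ← hgB]
    have e2 := ((hWDL _ (io p A) (io p B)).2.2.2.2.2 _
      ((MulAut.conj g).toMonoidHom) n).2 u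
    have e3 : (MulAut.conj g).toMonoidHom (io p A) = g * io p A * g⁻¹ := rfl
    have e4 : (MulAut.conj g).toMonoidHom (io p B) = g * io p B * g⁻¹ := rfl
    rw [e3, e4] at e2
    rw [← e2]
    constructor
    · intro h; rw [h, map_one]
    · intro h
      have : Function.Injective (MulAut.conj g).toMonoidHom := (MulAut.conj g).injective
      apply this; rw [h, map_one]

end Pool.Agent.Helper81.XP
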