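import Pool.Agent.Helper81.XP.StA
import Pool.Agent.Helper81.XP.StB

set_option autoImplicit false

/-!
MP_f90738_co: statements, part C (generating sets of bounded size).
-/

open Finset
open scoped Pointwise LinearAlgebra.Projectivization

namespace Pool.Agent.Helper81.XP

open Classical in
/-- ball of radius `l` -/
noncomputable def Bl {G : Type} [Group G] (S : Finset G) (l : ℕ) : Finset G :=
  (S ∪ S⁻¹ ∪ {1}) ^ l

open Classical in
/-- the expansion inequality with constant `c` for the finite set `S` -/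
def SExp {G : Type} [Group G] (S : Finset G) (c : ℝ) : Prop :=
  ∀ X : Finset G, 2 * X.card ≤ Nat.card G →
    c * (X.card : ℝ) ≤ ((((S ∪ S⁻¹) * X) \ X).card : ℝ)

/-- not of small order, trace not `2` or `-2` -/
def Hyp {p : ℕ} [Fact p.Prime] (g : SL (ZMod p)) : Prop :=
  tr g ≠ 2 ∧ tr g ≠ -2 ∧ ∀ m : ℕ, 1 ≤ m → m ≤ 120 → g ^ m ≠ 1

/-- BDC: traces of elements of small order -/
def ST_BDC : Prop := ∀ (p : ℕ) [Fact p.Prime], ∃ Bd : Finset (ZMod p), Bd.card ≤ 8000 ∧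
  ∀ g : SL (ZMod p), ¬ Hyp g → tr g ∈ Bd

/-- GN2: a generation criterion -/
def ST_GN2 : Prop := ∀ (p : ℕ) [Fact p.Prime], 5 ≤ p → ∀ g h : SL (ZMod p), Hyp g →
  (∀ ξ : Pt (AlgebraicClosure (ZMod p)), io p g • ξ = ξ →
    io p g • (io p h • ξ) ≠ io p h • ξ) →
  Subgroup.closure ({g, h} : Set (SL (ZMod p))) = ⊤

/-- TRG: every element which is not of small order lies in a generating pair -/
def ST_TRG : Prop := ∀ (p : ℕ) [Fact p.Prime], 5 ≤ p → ∀ S : Finset (SL (ZMod p)),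
  Subgroup.closure (S : Set (SL (ZMod p))) = ⊤ → ∀ g : SL (ZMod p), Hyp g →
  ∃ h ∈ Bl S 8, Subgroup.closure ({g, h} : Set (SL (ZMod p))) = ⊤

/-- EXA: existence of elements which are not of small order -/
def ST_EXA : Prop := ∃ N1 p1 : ℕ, ∀ (p : ℕ) [Fact p.Prime], p1 ≤ p →
  ∀ S : Finset (SL (ZMod p)), Subgroup.closure (S : Set (SL (ZMod p))) = ⊤ →
  ∃ g ∈ Bl S N1, Hyp g

/-- EXW: expansion of words gives expansion of the set -/
def ST_EXW : Prop := ∀ (G : Type) [Group G] [Finite G] (S : Finset G) (l : ℕ) (a b : G) (c : ℝ),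
  1 ≤ l → a ∈ Bl S l → b ∈ Bl S l → Expd a b c → SExp S (c / (4 * (l : ℝ)))

/-- SMS: trivial expansion -/
def ST_SMS : Prop := ∀ (G : Type) [Group G] [Finite G] (S : Finset G) (a b : G) (l : ℕ),
  a ∈ Bl S l → b ∈ Bl S l → Subgroup.closure ({a, b} : Set G) = ⊤ ∨
    Subgroup.closure (S : Set G) = ⊤ → SExp S (1 / (Nat.card G : ℝ))

/-- CTP: counting tuples -/
def ST_CTP : Prop := ∀ (p : ℕ) [Fact p.Prime], 5 ≤ p → ∀ (r : ℕ)
  (T : Finset (ZMod p × ZMod p × ZMod p)) (T' : Finset (ZMod p))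
  (F : Finset (Fin r → SL (ZMod p))),
  (∀ s ∈ F, ∃ a b : SL (ZMod p), Subgroup.closure ({a, b} : Set (SL (ZMod p))) = ⊤ ∧
    (tr a, tr b, tr (a * b)) ∈ T ∧ ∀ i, tr (s i) ∈ T' ∧ tr (s i * a) ∈ T' ∧ tr (s i * b) ∈ T') →
  F.card ≤ 4 * p ^ 3 * T.card * (2 * T'.card ^ 3) ^ r

open Classical in
/-- FNR: the main theorem for generating sets of bounded size -/
def ST_FNR : Prop := ∀ (r l : ℕ) (δ : ℝ), 0 < δ → ∃ ε : ℝ, 0 < ε ∧ ∀ (p : ℕ) [Fact p.Prime],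
  (∃ T : Finset (ZMod p × ZMod p × ZMod p), (T.card : ℝ) ≤ (p : ℝ) ^ δ ∧
    ∀ S : Finset (SL (ZMod p)), ∀ a ∈ Bl S l, ∀ b ∈ Bl S l,
    Subgroup.closure ({a, b} : Set (SL (ZMod p))) = ⊤ → (tr a, tr b, tr (a * b)) ∉ T →
    SExp S ε) ∧
  (((univ : Finset (Fin r → SL (ZMod p))).filter (fun s =>
    Subgroup.closure (Set.range s) = ⊤ ∧ ¬ SExp (univ.image s) ε)).card : ℝ) ≤
      (p : ℝ) ^ (3 + δ)

end Pool.Agent.Helper81.XP
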