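import Pool.Agent.Helper11.XP.CNC
import Pool.Agent.Helper11.XP.TRG
import Pool.Agent.Helper14.XP.BDE
import Pool.Agent.Helper14.XP.SFX
import Pool.Agent.Helper14.XP.VAP
import Pool.Agent.Helper18.XP.SH2
import Pool.Agent.Helper18.XP.TRP
import Pool.Agent.Helper81.XP.EXAx
import Pool.Agent.Helper2.XP.MIX
import Pool.Agent.Helper3.XP.GEN
import Pool.Agent.Helper3.XP.LIA
import Pool.Agent.Helper3.XP.ORB
import Pool.Agent.Helper3.XP.QSR
import Pool.Agent.Helper3.XP.WPL
import Pool.Agent.Helper30.XP.LEV
import Pool.Agent.Helper35.XP.INT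
import Pool.Agent.Helper38.XP.PPK
import Pool.Agent.Helper38.XP.VAI
import Pool.Agent.Helper4.XP.UUU
import Pool.Agent.Helper42.XP.BDC
import Pool.Agent.Helper42.XP.CRD
import Pool.Agent.Helper42.XP.CTP
import Pool.Agent.Helper42.XP.SEP
import Pool.Agent.Helper42.XP.TOR
import Pool.Agent.Helper42.XP.WLK
import Pool.Agent.Helper42.XP.YNG
import Pool.Agent.Helper44.XP.L2A
import Pool.Agent.Helper46.XP.KPL
import Pool.Agent.Helper46.XP.NCP
import Pool.Agent.Helper46.XP.PRF
import Pool.Agent.Helper46.XP.SBU
import Pool.Agent.Helper48.XP.GDP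
import Pool.Agent.Helper5.XP.FIX
import Pool.Agent.Helper5.XP.MET
import Pool.Agent.Helper5.XP.NRF
import Pool.Agent.Helper5.XP.TRC
import Pool.Agent.Helper5.XP.TRL
import Pool.Agent.Helper51.XP.CTT
import Pool.Agent.Helper51.XP.EXW
import Pool.Agent.Helper51.XP.FNR
import Pool.Agent.Helper51.XP.LIB
import Pool.Agent.Helper52.XP.GN2
import Pool.Agent.Helper52.XP.SBB
import Pool.Agent.Helper58.XP.PWD
import Pool.Agent.Helper59.XP.ESC
import Pool.Agent.Helper59.XP.RED
import Pool.Agent.Helper63.XP.UPR
import Pool.Agent.Helper68.XP.PRA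
import Pool.Agent.Helper7.XP.DIM
import Pool.Agent.Helper7.XP.ITR
import Pool.Agent.Helper71.XP.PTH
import Pool.Agent.Helper71.XP.STB
import Pool.Agent.Helper72.XP.NIV
import Pool.Agent.Helper77.XP.PRO
import Pool.Agent.Helper79.XP.CFP
import Pool.Agent.Helper80.XP.BSG
import Pool.Agent.Helper80.XP.CNB
import Pool.Agent.Helper80.XP.FIN
import Pool.Agent.Helper80.XP.TOC
import Pool.Agent.Helper80.XP.WDL
import Pool.Agent.Helper81.XP.Final
import Pool.Agent.Helper81.XP.GDF
import Pool.Agent.Helper81.XP.StC
import Pool.Agent.Helper82.XP.HVY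
import Pool.Agent.Helper82.XP.RTL
import Pool.Agent.Helper82.XP.SML
import Pool.Agent.Helper83.XP.ELR
import Pool.Agent.Helper83.XP.GAP
import Pool.Agent.Helper83.XP.SMS
import Pool.Agent.Helper85.XP.FLT
import Pool.Agent.Helper81.XP.PRBx
import Pool.Agent.Helper88.XP.RES
import Pool.Agent.Helper94.XP.APG
import Pool.Agent.Helper94.XP.SPE
import Pool.Agent.Helper97.XP.CNA
import Pool.Agent.Helper97.XP.DET

set_option autoImplicit false

/-!
MP_f90738_co: assembly.
-/

namespace Pool.Agent.Helper81.XP

theorem main_all : ST_FNR ∧ ST_SMS ∧ ST_CRD := by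
  have hLEV : ST_LEV := by
    apply Pool.Agent.Helper30.XP.st_LEV <;> assumption
  have hTOR : ST_TOR := by
    apply Pool.Agent.Helper42.XP.st_TOR <;> assumption
  have hYNG : ST_YNG := by
    apply Pool.Agent.Helper42.XP.st_YNG <;> assumption
  have hFIX : ST_FIX := by
    apply Pool.Agent.Helper5.XP.st_FIX <;> assumption
  have hCFP : ST_CFP := by
    apply Pool.Agent.Helper79.XP.st_CFP <;> assumption
  have hCRD : ST_CRD := by
    apply Pool.Agent.Helper42.XP.st_CRD <;> assumption
  have hTRC : ST_TRC := by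
    apply Pool.Agent.Helper5.XP.st_TRC <;> assumption
  have hSTB : ST_STB := by
    apply Pool.Agent.Helper71.XP.st_STB <;> assumption
  have hPRF : ST_PRF := by
    apply Pool.Agent.Helper46.XP.st_PRF <;> assumption
  have hHVY : ST_HVY := by
    apply Pool.Agent.Helper82.XP.st_HVY <;> assumption
  have hNIV : ST_NIV := by
    apply Pool.Agent.Helper72.XP.st_NIV <;> assumption
  have hPTH : ST_PTH := by
    apply Pool.Agent.Helper71.XP.st_PTH <;> assumption
  have hBSG : ST_BSG := by
    apply Pool.Agent.Helper80.XP.st_BSG <;> assumption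
  have hAPG : ST_APG := by
    apply Pool.Agent.Helper94.XP.st_APG <;> assumption
  have hESC : ST_ESC := by
    apply Pool.Agent.Helper59.XP.st_ESC <;> assumption
  have hTOC : ST_TOC := by
    apply Pool.Agent.Helper80.XP.st_TOC <;> assumption
  have hPRA : ST_PRA := by
    apply Pool.Agent.Helper68.XP.st_PRA <;> assumption
  have hPRB : ST_PRB := by
    apply Pool.Agent.Helper81.XPb.st_PRB <;> assumption
  have hPRO : ST_PRO := by
    apply Pool.Agent.Helper77.XP.PRO.st_PRO <;> assumption
  have hFLT : ST_FLT := by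
    apply Pool.Agent.Helper85.XP.FLT.FLT <;> assumption
  have hWLK : ST_WLK := by
    apply Pool.Agent.Helper42.XP.st_WLK <;> assumption
  have hITR : ST_ITR := by
    apply Pool.Agent.Helper7.XP.st_ITR <;> assumption
  have hMET : ST_MET := by
    apply Pool.Agent.Helper5.XP.st_MET <;> assumption
  have hVAP : ST_VAP := by
    apply Pool.Agent.Helper14.XP.st_VAP <;> assumption
  have hSBU : ST_SBU := by
    apply Pool.Agent.Helper46.XP.st_SBU <;> assumption
  have hLIA : ST_LIA := by
    apply Pool.Agent.Helper3.XP.st_LIA <;> assumption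
  have hLIB : ST_LIB := by
    apply Pool.Agent.Helper51.XP.st_LIB <;> assumption
  have hSH2 : ST_SH2 := by
    apply Pool.Agent.Helper18.XP.st_SH2 <;> assumption
  have hRES : ST_RES := by
    apply Pool.Agent.Helper88.XP.st_RES <;> assumption
  have hELR : ST_ELR := by
    apply Pool.Agent.Helper83.XP.st_ELR <;> assumption
  have hINT : ST_INT := by
    apply Pool.Agent.Helper35.XP.st_INT <;> assumption
  have hVAI : ST_VAI := by
    apply Pool.Agent.Helper38.XP.st_VAI <;> assumption
  have hORB : ST_ORB := by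
    apply Pool.Agent.Helper3.XP.st_ORB <;> assumption
  have hSEP : ST_SEP := by
    apply Pool.Agent.Helper42.XP.st_SEP <;> assumption
  have hSML : ST_SML := by
    apply Pool.Agent.Helper82.XP.st_SML <;> assumption
  have hWDL : ST_WDL := by
    apply Pool.Agent.Helper80.XP.st_WDL <;> assumption
  have hPWD : ST_PWD := by
    apply Pool.Agent.Helper58.XP.st_PWD <;> assumption
  have hDIM : ST_DIM := by
    apply Pool.Agent.Helper7.XP.st_DIM <;> assumption
  have hQSR : ST_QSR := by
    apply Pool.Agent.Helper3.XP.st_QSR <;> assumption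
  have hGAP : ST_GAP := by
    apply Pool.Agent.Helper83.XP.st_GAP <;> assumption
  have hWPL : ST_WPL := by
    apply Pool.Agent.Helper3.XP.st_WPL <;> assumption
  have hTRL : ST_TRL := by
    apply Pool.Agent.Helper5.XP.st_TRL <;> assumption
  have hUPR : ST_UPR := by
    apply Pool.Agent.Helper81.XP.st_UPR <;> assumption
  have hNRF : ST_NRF := by
    apply Pool.Agent.Helper5.XP.st_NRF <;> assumption
  have hGDP : ST_GDP := by
    apply Pool.Agent.Helper48.XP.st_GDP <;> assumption
  have hSFX : ST_SFX := by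
    apply Pool.Agent.Helper14.XP.st_SFX <;> assumption
  have hL2A : ST_L2A := by
    apply Pool.Agent.Helper44.XP.st_L2A <;> assumption
  have hPPK : ST_PPK := by
    apply Pool.Agent.Helper38.XP.st_PPK <;> assumption
  have hKPL : ST_KPL := by
    apply Pool.Agent.Helper46.XP.st_KPL <;> assumption
  have hUUU : ST_UUU := by
    apply Pool.Agent.Helper4.XP.st_UUU <;> assumption
  have hNCP : ST_NCP := by
    apply Pool.Agent.Helper46.XP.st_NCP <;> assumption
  have hRTL : ST_RTL := by
    apply Pool.Agent.Helper82.XP.st_RTL <;> assumption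
  have hRED : ST_RED := by
    apply Pool.Agent.Helper59.XP.st_RED <;> assumption
  have hCNB : ST_CNB := by
    apply Pool.Agent.Helper80.XP.st_CNB <;> assumption
  have hCNA : ST_CNA := by
    apply Pool.Agent.Helper97.XP.st_CNA <;> assumption
  have hGEN : ST_GEN := by
    apply Pool.Agent.Helper3.XP.st_GEN <;> assumption
  have hTRP : ST_TRP := by
    apply Pool.Agent.Helper18.XP.st_TRP <;> assumption
  have hSPE : ST_SPE := by
    apply Pool.Agent.Helper94.XP.st_SPE <;> assumption
  have hCNC : ST_CNC := by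
    apply Pool.Agent.Helper81.XP.st_CNC <;> assumption
  have hDET : ST_DET := by
    apply Pool.Agent.Helper97.XP.st_DET <;> assumption
  have hBDE : ST_BDE := by
    apply Pool.Agent.Helper14.XP.st_BDE <;> assumption
  have hGDF : ST_GDF := by
    apply Pool.Agent.Helper81.XP.st_GDF <;> assumption
  have hCTT : ST_CTT := by
    apply Pool.Agent.Helper51.XP.st_CTT <;> assumption
  have hSBB : ST_SBB := by
    apply Pool.Agent.Helper52.XP.st_SBB <;> assumption
  have hMIX : ST_MIX := by
    apply Pool.Agent.Helper2.XP.st_MIX <;> assumption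
  have hFIN : ST_FIN := by
    apply Pool.Agent.Helper80.XP.st_FIN <;> assumption
  have hSMS : ST_SMS := by
    apply Pool.Agent.Helper83.XP.st_SMS <;> assumption
  have hGN2 : ST_GN2 := by
    apply Pool.Agent.Helper52.XP.st_GN2 <;> assumption
  have hTRG : ST_TRG := by
    apply Pool.Agent.Helper81.XP.st_TRG <;> assumption
  have hCTP : ST_CTP := by
    apply Pool.Agent.Helper42.XP.st_CTP <;> assumption
  have hEXW : ST_EXW := by
    apply Pool.Agent.Helper51.XP.st_EXW <;> assumption
  have hBDC : ST_BDC := by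
    apply Pool.Agent.Helper42.XP.st_BDC <;> assumption
  have hEXA : ST_EXA := by
    apply Pool.Agent.Helper81.XPe.st_EXA <;> assumption
  have hFNR : ST_FNR := by
    apply Pool.Agent.Helper51.XP.st_FNR <;> assumption
  exact ⟨hFNR, hSMS, hCRD⟩

end Pool.Agent.Helper81.XP
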