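import Pool.Agent.Helper81.XP.StC
import Pool.Agent.Helper81.XP.Pj

set_option autoImplicit false

/-!
MP_f90738_co: counting conjugacy classes of tuples.
-/

open Finset
open scoped Pointwise

namespace Pool.Agent.Helper81.XP

/-- simultaneous conjugation -/
def cj {G : Type} [Group G] {r : ℕ} (g : G) (s : Fin r → G) : Fin r → G := fun i => g * s i * g⁻¹

theorem cj_cj {G : Type} [Group G] {r : ℕ} (g h : G) (s : Fin r → G) :
    cj g (cj h s) = cj (g * h) s := by
  funext i; simp only [cj]; group

theorem cj_one {G : Type} [Group G] {r : ℕ} (s : Fin r → G) : cj (1 : G) s = s := by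
  funext i; simp [cj]

theorem central_pm (p : ℕ) [Fact p.Prime] (x : SL (ZMod p)) (h : ∀ y : SL (ZMod p), x * y = y * x) :
    x = 1 ∨ x = -1 := by
  have h1 := h ⟨!![1, 1; 0, 1], by simp [Matrix.det_fin_two]⟩
  have h2 := h ⟨!![1, 0; 1, 1], by simp [Matrix.det_fin_two]⟩
  have e1 := congrArg (fun z : SL (ZMod p) => (z : Matrix (Fin 2) (Fin 2) (ZMod p)) 0 0) h1
  have e2 := congrArg (fun z : SL (ZMod p) => (z : Matrix (Fin 2) (Fin 2) (ZMod p)) 0 1) h1
  have e3 := congrArg (fun z : SL (ZMod p) => (z : Matrix (Fin 2) (Fin 2) (ZMod p)) 0 0) h2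
  simp only [Matrix.SpecialLinearGroup.coe_mul, Matrix.mul_apply, Fin.sum_univ_two,
    Matrix.of_apply, Matrix.cons_val_zero, Matrix.cons_val_one, mul_one, mul_zero, zero_mul,
    one_mul, add_zero, Matrix.cons_val', Matrix.cons_val_fin_one] at e1 e2 e3
  apply eq_pm_one
  · linear_combination e3
  · linear_combination -e1
  · linear_combination e2

open Classical in
theorem orb_card (p : ℕ) [Fact p.Prime] {r : ℕ} (s : Fin r → SL (ZMod p))
    (hs : Subgroup.closure (Set.range s) = ⊤) :
    Nat.card (SL (ZMod p)) ≤ 2 * ((univ : Finset (SL (ZMod p))).image (fun g => cj g s)).card := by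
  rw [Nat.card_eq_fintype_card, ← Finset.card_univ]
  apply Finset.card_le_mul_card_image
  intro t ht
  obtain ⟨g0, -, rfl⟩ := Finset.mem_image.1 ht
  refine le_trans (Finset.card_le_card (t := {g0, -g0}) ?_) Finset.card_le_two
  intro g hg
  rw [Finset.mem_filter] at hg
  have hg2 := hg.2
  have hc : ∀ i, (g0⁻¹ * g) * s i = s i * (g0⁻¹ * g) := by
    intro i
    have := congrFun hg2 i
    simp only [cj] at this
    calc g0⁻¹ * g * s i = g0⁻¹ * (g * s i * g⁻¹) * g := by group
      _ = g0⁻¹ * (g0 * s i * g0⁻¹) * g := by rw [this]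
      _ = s i * (g0⁻¹ * g) := by group
  have hcen : ∀ y : SL (ZMod p), (g0⁻¹ * g) * y = y * (g0⁻¹ * g) := by
    intro y
    have hy : y ∈ Subgroup.closure (Set.range s) := by rw [hs]; exact Subgroup.mem_top y
    have hle : Subgroup.closure (Set.range s) ≤ Subgroup.centralizer {g0⁻¹ * g} := by
      rw [Subgroup.closure_le]
      rintro _ ⟨i, rfl⟩
      rw [SetLike.mem_coe, Subgroup.mem_centralizer_iff]
      intro z hz
      rw [Set.mem_singleton_iff] at hz
      rw [hz]
      exact hc i
    have := hle hy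
    rw [Subgroup.mem_centralizer_iff] at this
    exact this _ rfl
  rw [Finset.mem_insert, Finset.mem_singleton]
  rcases central_pm p _ hcen with h | h
  · left
    rw [inv_mul_eq_one] at h
    exact h.symm
  · right
    rw [inv_mul_eq_iff_eq_mul] at h
    rw [h]
    ext i j
    simp

open Classical in
/-- conjugation invariant sets of generating tuples -/
theorem classes (p : ℕ) [Fact p.Prime] {r : ℕ} (F : Finset (Fin r → SL (ZMod p)))
    (h1 : ∀ s ∈ F, Subgroup.closure (Set.range s) = ⊤)
    (h2 : ∀ s ∈ F, ∀ g, cj g s ∈ F) :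
    ∃ R : Finset (Fin r → SL (ZMod p)), R.card * Nat.card (SL (ZMod p)) ≤ 2 * F.card ∧
      ∀ s ∈ F, ∃ t ∈ R, ∃ g, s = cj g t := by
  set orb : (Fin r → SL (ZMod p)) → Finset (Fin r → SL (ZMod p)) :=
    fun s => (univ : Finset (SL (ZMod p))).image (fun g => cj g s) with horb
  have hmem : ∀ s, s ∈ orb s := fun s => Finset.mem_image.2 ⟨1, Finset.mem_univ _, cj_one s⟩
  have heq : ∀ s t, t ∈ orb s → orb t = orb s := by
    intro s t ht
    obtain ⟨g, -, rfl⟩ := Finset.mem_image.1 ht
    ext u
    simp only [horb, Finset.mem_image, Finset.mem_univ, true_and, cj_cj]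
    constructor
    · rintro ⟨h, rfl⟩; exact ⟨h * g, rfl⟩
    · rintro ⟨h, rfl⟩; exact ⟨h * g⁻¹, by rw [inv_mul_cancel_right]⟩
  set O := F.image orb with hO
  have hcard : O.card * Nat.card (SL (ZMod p)) ≤ 2 * F.card := by
    have hsum : F.card = ∑ o ∈ O, (F.filter (fun s => orb s = o)).card :=
      Finset.card_eq_sum_card_fiberwise (fun s hs => Finset.mem_image_of_mem orb hs)
    rw [hsum, Finset.mul_sum]
    calc O.card * Nat.card (SL (ZMod p)) = ∑ o ∈ O, Nat.card (SL (ZMod p)) := by
          rw [Finset.sum_const, smul_eq_mul]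
      _ ≤ ∑ o ∈ O, 2 * (F.filter (fun s => orb s = o)).card := by
          apply Finset.sum_le_sum
          intro o ho
          obtain ⟨s, hs, rfl⟩ := Finset.mem_image.1 ho
          refine le_trans (orb_card p s (h1 s hs)) ?_
          apply Nat.mul_le_mul_left
          apply Finset.card_le_card
          intro t ht
          rw [Finset.mem_filter]
          refine ⟨?_, heq s t ht⟩
          obtain ⟨g, -, rfl⟩ := Finset.mem_image.1 ht
          exact h2 s hs g
  have hne : ∀ o ∈ O, ∃ s ∈ F, orb s = o := fun o ho => Finset.mem_image.1 ho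
  choose! f hf1 hf2 using hne
  refine ⟨O.image f, le_trans (Nat.mul_le_mul_right _ Finset.card_image_le) hcard, ?_⟩
  intro s hs
  have hso : orb s ∈ O := Finset.mem_image_of_mem orb hs
  refine ⟨f (orb s), Finset.mem_image_of_mem f hso, ?_⟩
  have h3 := hf2 _ hso
  have h4 : s ∈ orb (f (orb s)) := by rw [h3]; exact hmem s
  obtain ⟨g, -, hg⟩ := Finset.mem_image.1 h4
  exact ⟨g, hg.symm⟩

end Pool.Agent.Helper81.XP
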