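import Mathlib

set_option autoImplicit false

/-!
MP_f90738_co (uniform expansion of generating pairs of SL_2(Z/p)): definitions.

TARGET: for every `δ > 0` there is `c > 0` such that for every prime `p` there is a set `T` of at
most `p ^ δ` triples such that every generating pair `(A, B)` of `SL_2(Z/p)` with
`(tr A, tr B, tr AB) ∉ T` satisfies the expansion inequality with the constant `c`.
-/

open Finset
open scoped Pointwise LinearAlgebra.Projectivization

namespace Pool.Agent.Helper81.XP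

/-! ### words -/

/-- the five letters `1, a, a⁻¹, b, b⁻¹` -/
def lt {Γ : Type} [Group Γ] (a b : Γ) : Fin 5 → Γ := ![1, a, a⁻¹, b, b⁻¹]

/-- the value of a word of length `n` -/
def wd {Γ : Type} [Group Γ] (a b : Γ) {n : ℕ} (w : Fin n → Fin 5) : Γ :=
  (List.ofFn fun i => lt a b (w i)).prod

/-- `g` is the value of a word of length `n` -/
def IsWd {Γ : Type} [Group Γ] (a b : Γ) (n : ℕ) (g : Γ) : Prop := ∃ w : Fin n → Fin 5, wd a b w = g

/-- commutator -/
def ct {Γ : Type} [Group Γ] (g h : Γ) : Γ := g * h * g⁻¹ * h⁻¹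

/-- double commutator -/
def dc {Γ : Type} [Group Γ] (g1 g2 g3 g4 : Γ) : Γ := ct (ct g1 g2) (ct g3 g4)

/-- the double commutator of four words -/
def dw {Γ : Type} [Group Γ] (a b : Γ) {n : ℕ} (u : Fin 4 → Fin n → Fin 5) : Γ :=
  dc (wd a b (u 0)) (wd a b (u 1)) (wd a b (u 2)) (wd a b (u 3))

/-! ### the projective line -/

/-- the points of the projective line -/
abbrev Pt (K : Type) [Field K] : Type := ℙ K (Fin 2 → K)

/-- `SL_2` -/
abbrev SL (K : Type) [CommRing K] : Type := Matrix.SpecialLinearGroup (Fin 2) K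

/-- trace -/
def tr {K : Type} [CommRing K] (g : SL K) : K := Matrix.trace (g : Matrix (Fin 2) (Fin 2) K)

open Classical in
/-- the random walk of length `n` does not concentrate on points of the projective line -/
def NC {K : Type} [Field K] (a b : SL K) (n : ℕ) (θ : ℝ) : Prop :=
  ∀ ξ ξ' : Pt K, (((univ : Finset (Fin n → Fin 5)).filter
    (fun w => wd a b w • ξ = ξ')).card : ℝ) ≤ θ * 5 ^ n

/-- ping-pong sets for `g` and `h` on `Y` -/
def P4 {Γ : Type} [Group Γ] (Y : Type) [MulAction Γ Y] (g h : Γ) : Prop :=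
  ∃ U1 U2 U3 U4 : Set Y, Disjoint U1 U2 ∧ Disjoint U1 U3 ∧ Disjoint U1 U4 ∧ Disjoint U2 U3 ∧
    Disjoint U2 U4 ∧ Disjoint U3 U4 ∧
    (∀ y, y ∉ U2 → g • y ∈ U1) ∧ (∀ y, y ∉ U1 → g⁻¹ • y ∈ U2) ∧
    (∀ y, y ∉ U4 → h • y ∈ U3) ∧ (∀ y, y ∉ U3 → h⁻¹ • y ∈ U4)

/-- ping-pong by words of length `L` on `Y` -/
def PP {Γ : Type} [Group Γ] (Y : Type) [MulAction Γ Y] (a b : Γ) (L : ℕ) : Prop :=
  ∃ g h : Γ, IsWd a b L g ∧ IsWd a b L h ∧ P4 Y g h

/-- length of the ping-pong words -/
def LL : ℕ := 400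

/-- rate of decay -/
noncomputable def rr : ℝ := 1 - 1 / (80 * (LL : ℝ) ^ 2)

/-! ### the family of pairs -/

/-- the matrix `[[x, -1], [1, 0]]` -/
def mA {K : Type} [CommRing K] (x : K) : SL K :=
  ⟨!![x, -1; 1, 0], by simp [Matrix.det_fin_two]⟩

open Classical in
/-- the matrix `[[0, τ], [-1/τ, y]]` -/
noncomputable def mB {K : Type} [Field K] (y τ : K) : SL K :=
  if h : τ ≠ 0 then ⟨!![0, τ; -τ⁻¹, y], by simp [Matrix.det_fin_two, h]⟩ else 1

/-- first matrix of the pair with parameters `P = (x, y, τ)`; `x` is its trace -/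
def vA {K : Type} [Field K] (P : Fin 3 → K) : SL K := mA (P 0)

/-- second matrix of the pair with parameters `P = (x, y, τ)`; `y` is its trace and `τ + 1/τ` is
the trace of the product -/
noncomputable def vB {K : Type} [Field K] (P : Fin 3 → K) : SL K := mB (P 1) (P 2)

/-- `τ² (x² + y² + z² - xyz - 4)` with `z = τ + 1/τ` -/
def kap {K : Type} [CommRing K] (P : Fin 3 → K) : K :=
  P 0 ^ 2 * P 2 ^ 2 + P 1 ^ 2 * P 2 ^ 2 + (P 2 ^ 2 + 1) ^ 2 - P 0 * P 1 * P 2 * (P 2 ^ 2 + 1) -
    4 * P 2 ^ 2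

/-- irreducible and not dihedral -/
def Good {K : Type} [CommRing K] (P : Fin 3 → K) : Prop :=
  P 2 ≠ 0 ∧ kap P ≠ 0 ∧ (P 0 ≠ 0 ∨ P 1 ≠ 0) ∧ (P 0 ≠ 0 ∨ P 2 ^ 2 + 1 ≠ 0) ∧
    (P 1 ≠ 0 ∨ P 2 ^ 2 + 1 ≠ 0)

/-! ### the field of algebraic functions -/

/-- algebraic closure of `k(t)` -/
abbrev Om (k : Type) [Field k] : Type := AlgebraicClosure (RatFunc k)

/-- the variable `t` -/
noncomputable def tt (k : Type) [Field k] : Om k := algebraMap (Polynomial k) (Om k) Polynomial.X

/-- the points to which the uniform estimate applies: good, integral over `k[t]`, and `t` is an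
affine function of the coordinates -/
def InCls {k : Type} [Field k] (P : Fin 3 → Om k) : Prop :=
  Good P ∧ (∀ i, IsIntegral (Polynomial k) (P i)) ∧
    ∃ (c : Fin 3 → k) (d : k), tt k = ∑ i, algebraMap k (Om k) (c i) * P i + algebraMap k (Om k) d

/-- valuation subring of `Om k` at infinity -/
def AtInf {k : Type} [Field k] (O : ValuationSubring (Om k)) : Prop :=
  (∀ c : k, algebraMap k (Om k) c ∈ O) ∧ tt k ∉ O

/-- valuation subring of `Om k` above `t = t0` -/
def AtPt {k : Type} [Field k] (t0 : k) (O : ValuationSubring (Om k)) : Prop :=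
  (∀ c : k, algebraMap k (Om k) c ∈ O) ∧ O.valuation (tt k - algebraMap k (Om k) t0) < 1

/-! ### polynomials in `t, s, w` -/

/-- `k[t][s]` -/
abbrev T2 (k : Type) [Field k] : Type := Polynomial (Polynomial k)

/-- `k[t][s][w]` -/
abbrev T3 (k : Type) [Field k] : Type := Polynomial (Polynomial (Polynomial k))

/-- evaluation of an element of `k[t][s]` -/
noncomputable def ev2 {k : Type} [Field k] {K : Type} [CommRing K] [Algebra k K] (a b : K) :
    T2 k →+* K :=
  Polynomial.eval₂RingHom (Polynomial.eval₂RingHom (algebraMap k K) a) b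

/-- evaluation of an element of `k[t][s][w]` -/
noncomputable def ev3 {k : Type} [Field k] {K : Type} [CommRing K] [Algebra k K] (a b c : K) :
    T3 k →+* K :=
  Polynomial.eval₂RingHom (ev2 a b) c

/-- total degree at most `N` -/
def TD2 {k : Type} [Field k] (N : ℕ) (F : T2 k) : Prop :=
  ∀ i j, (F.coeff i).coeff j ≠ 0 → i + j ≤ N

/-- total degree at most `N` -/
def TD3 {k : Type} [Field k] (N : ℕ) (F : T3 k) : Prop :=
  ∀ i j l, ((F.coeff i).coeff j).coeff l ≠ 0 → i + j + l ≤ N

/-- total degree `N` and leading coefficient in `s` constant and nonzero -/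
def Mo2 {k : Type} [Field k] (N : ℕ) (F : T2 k) : Prop :=
  TD2 N F ∧ ∃ c : k, c ≠ 0 ∧ F.coeff N = Polynomial.C c

/-- total degree `N` and leading coefficient in `w` constant and nonzero -/
def Mo3 {k : Type} [Field k] (N : ℕ) (F : T3 k) : Prop :=
  TD3 N F ∧ ∃ c : k, c ≠ 0 ∧ F.coeff N = Polynomial.C (Polynomial.C c)

/-- linear forms: the coordinates of `M (t, s, w)` -/
noncomputable def lf {k : Type} [Field k] (M : Matrix (Fin 3) (Fin 3) k) (i : Fin 3) : T3 k :=
  Polynomial.C (Polynomial.C (Polynomial.C (M i 0) * Polynomial.X)) +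
    Polynomial.C (Polynomial.C (Polynomial.C (M i 1)) * Polynomial.X) +
    Polynomial.C (Polynomial.C (Polynomial.C (M i 2))) * Polynomial.X

/-- linear change of coordinates -/
noncomputable def phi {k : Type} [Field k] (M : Matrix (Fin 3) (Fin 3) k) :
    MvPolynomial (Fin 3) k →+* T3 k :=
  MvPolynomial.eval₂Hom
    ((Polynomial.C.comp (Polynomial.C.comp Polynomial.C)) : k →+* T3 k) (lf M)

/-- `M (a, b, c)` -/
noncomputable def mv {k : Type} [Field k] {K : Type} [CommRing K] [Algebra k K]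
    (M : Matrix (Fin 3) (Fin 3) k) (a b c : K) : Fin 3 → K :=
  fun i => algebraMap k K (M i 0) * a + algebraMap k K (M i 1) * b + algebraMap k K (M i 2) * c

/-! ### functions on a finite group -/

/-- square of the `L²` norm -/
def N2 {G : Type} [Fintype G] (f : G → ℝ) : ℝ := ∑ x, f x ^ 2

/-- convolution -/
def cv {G : Type} [Group G] [Fintype G] (f g : G → ℝ) (x : G) : ℝ := ∑ y, f y * g (y⁻¹ * x)

open Classical in
/-- distribution of the random walk -/
noncomputable def mu {G : Type} [Group G] (a b : G) (n : ℕ) (x : G) : ℝ :=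
  (((univ : Finset (Fin n → Fin 5)).filter (fun w => wd a b w = x)).card : ℝ) / 5 ^ n

/-- symmetric probability measure -/
def SP {G : Type} [Group G] [Fintype G] (ν : G → ℝ) : Prop :=
  (∀ x, 0 ≤ ν x) ∧ (∑ x, ν x = 1) ∧ ∀ x, ν x⁻¹ = ν x

open Classical in
/-- mass of the coset `g H` -/
noncomputable def cm {G : Type} [Group G] [Fintype G] (ν : G → ℝ) (g : G) (H : Subgroup G) : ℝ :=
  ∑ x, if g⁻¹ * x ∈ H then ν x else 0

open Classical in
/-- multiplicative energy of a (symmetric) set -/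
noncomputable def En {G : Type} [Group G] (A : Finset G) : ℕ :=
  ((A ×ˢ A ×ˢ A ×ˢ A).filter (fun q => q.1 * q.2.1 = q.2.2.1 * q.2.2.2)).card

/-- the finite group `SL_2(F_p)` inside `SL_2` of the algebraic closure -/
noncomputable def io (p : ℕ) [Fact p.Prime] : SL (ZMod p) →* SL (AlgebraicClosure (ZMod p)) :=
  Matrix.SpecialLinearGroup.map (algebraMap (ZMod p) (AlgebraicClosure (ZMod p)))

open Classical in
/-- the expansion inequality with constant `c` for the generating pair `a, b` -/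
def Expd {G : Type} [Group G] (a b : G) (c : ℝ) : Prop :=
  ∀ X : Finset G, 2 * X.card ≤ Nat.card G →
    c * (X.card : ℝ) ≤ ((((({a, b} : Finset G) ∪ ({a, b} : Finset G)⁻¹) * X) \ X).card : ℝ)

end Pool.Agent.Helper81.XP
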